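import Pool.Agent.H705.RO.Stm

/-! # Sums over zeros with random ordinates and random phases: the theorem from its parts -/

set_option autoImplicit false

namespace Pool.Agent.H705.RO

open MeasureTheory ProbabilityTheory Filter Topology Finset

/-- the upper limit of `(a 0 + … + a (N - 1)) / (log N) ^ κ` -/
noncomputable def Lam (a : ℕ → ℝ) (κ : ℝ) : EReal :=
  Filter.limsup (fun N : ℕ => ((R a N / Real.log N ^ κ : ℝ) : EReal)) atTop

/-- the final statement -/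
def Main : Prop :=
    (∃ (Ω : Type) (_ : MeasurableSpace Ω) (P : Measure Ω) (X : ℕ → Ω → ℝ × ℝ), Model P X) ∧
    ∀ (Ω : Type) [MeasurableSpace Ω] (P : Measure Ω) (X : ℕ → Ω → ℝ × ℝ), Model P X →
      ∀ (A : ℕ) (g w : ℕ → ℝ), Win A g w → ∀ (ι : Type) [Countable ι] (a β : ι → ℕ → ℝ), (∀ i, Amp (a i)) →
        ∀ᵐ ω ∂P, ∀ i : ι, ∃ S : ℝ → ℝ, ContinuousOn S (Set.Ici 0) ∧
          (∀ t : ℝ, 0 ≤ t → Tendsto (fun N : ℕ => ∑ n ∈ range N,
            a i n * Real.cos ((g n + w n * (X n ω).1) * t + 2 * Real.pi * (X n ω).2 + β i n)) atTop (𝓝 (S t))) ∧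
          ∀ κ c : ℝ, 0 < κ →
            (Filter.limsup (fun x : ℝ => (((Real.sqrt x * (c + S (Real.log x))) /
                (Real.sqrt x * Real.log (Real.log (Real.log x)) ^ κ) : ℝ) : EReal)) atTop = Lam (a i) κ ∧
              Filter.liminf (fun x : ℝ => (((Real.sqrt x * (c + S (Real.log x))) /
                (Real.sqrt x * Real.log (Real.log (Real.log x)) ^ κ) : ℝ) : EReal)) atTop = -Lam (a i) κ) ∧
            ((∃ B : ℝ, 0 < B ∧
              Filter.liminf (fun x : ℝ => (((Real.sqrt x * (c + S (Real.log x))) /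
                (Real.sqrt x * Real.log (Real.log (Real.log x)) ^ κ) : ℝ) : EReal)) atTop = ((-B : ℝ) : EReal) ∧
              Filter.limsup (fun x : ℝ => (((Real.sqrt x * (c + S (Real.log x))) /
                (Real.sqrt x * Real.log (Real.log (Real.log x)) ^ κ) : ℝ) : EReal)) atTop = ((B : ℝ) : EReal)) ↔
              0 < Lam (a i) κ ∧ Lam (a i) κ < ⊤)

theorem part_le (a β g w : ℕ → ℝ) (ha : ∀ n, 0 ≤ a n) (x : ℕ → ℝ × ℝ) (N : ℕ) (t : ℝ) :
    |part (wave a β g w x) N t| ≤ R a N := by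
  unfold part R
  refine (Finset.abs_sum_le_sum_abs _ _).trans (Finset.sum_le_sum fun n _ => ?_)
  unfold wave
  rw [abs_mul, abs_of_nonneg (ha n)]
  exact mul_le_of_le_one_right (ha n) (Real.abs_cos_le_one _)

theorem main_of (hMOD : P_MOD) (hTAIL : P_TAIL) (hUP : P_UP) (hLOW : P_LOW) (hLOC : P_LOC) (hFIN : P_FIN) : Main := by
  refine ⟨hMOD.1, ?_⟩
  intro Ω _ P X hX A g w hw ι _ a β ha
  rw [ae_all_iff]
  intro i
  filter_upwards [hTAIL Ω P X hX (a i) (β i) g w A (ha i) hw, hLOC Ω P X hX (a i) (β i) g w A (ha i) hw]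
    with ω h1 h2
  obtain ⟨S, hS1, hS2, hS3⟩ := h1
  refine ⟨S, hS2, fun t ht => hS1 t ht, ?_⟩
  intro κ c hκ
  have key := hFIN S (a i) κ (ha i).1 hκ
    (fun b b' hb hbb hR => hUP _ S (a i) κ b b' hS3 (part_le (a i) (β i) g w (ha i).1 _) hκ hb hbb hR)
    (fun σ b b'' hσ hb hbb hR => hLOW _ S (a i) σ κ b b'' hσ (ha i).1 hS3 (h2 σ hσ) hκ hb hbb hR) c
  refine ⟨key, ?_⟩
  rw [key.1, key.2]
  constructor
  · rintro ⟨B, hB, -, h⟩
    change Lam (a i) κ = _ at h
    rw [h]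
    exact ⟨by exact_mod_cast hB, EReal.coe_lt_top B⟩
  · rintro ⟨h0, h1⟩
    change 0 < Lam (a i) κ at h0
    have hbot : Lam (a i) κ ≠ ⊥ := fun h => by rw [h] at h0; exact absurd h0 (by simp)
    refine ⟨(Lam (a i) κ).toReal, ?_, ?_, ?_⟩
    · rw [← EReal.coe_lt_coe_iff, EReal.coe_toReal h1.ne hbot]
      exact h0
    · rw [EReal.coe_neg, EReal.coe_toReal h1.ne hbot]
      rfl
    · rw [EReal.coe_toReal h1.ne hbot]
      rfl

end Pool.Agent.H705.RO
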