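import Pool.Agent.H705.RO.Stm

/-! # The frequency of the large values of sums over zeros with random ordinates: the parts of the proof

Every `P_X` is one part; its docstring is a complete paper proof. The statements `P_HOE`, `P_AL`, `P_LOP`, … of
`Pool.Agent.H705.RO.Stm` are all proved (they may be used as hypotheses where listed). -/

set_option autoImplicit false

namespace Pool.Agent.H705.RO

open MeasureTheory ProbabilityTheory Filter Topology Finset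

/-- `⌈k ^ θ⌉` -/
noncomputable def Nk (θ : ℝ) (k : ℕ) : ℕ := ⌈(k : ℝ) ^ θ⌉₊

/-- **JM** (joint measurability). The set of the pairs `(ω, t)` for which the first `N` arguments at time `t` are within `δ / 2` of
integers, and the set of those for which the sum of the waves `M ≤ n < M'` is at least `1`, are measurable.
Proof. `(ω, t) ↦ arg g w s (fun n => X n ω) n t` and `(ω, t) ↦ wave …` are measurable (polynomials in the measurable functions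
`X n` and in `t`, composed with `cos`), `{y | nr δ y}` is measurable by ARC (3), finite intersections and finite sums. -/
def P_JM : Prop :=
  ∀ (Ω : Type) [MeasurableSpace Ω] (P : Measure Ω) (X : ℕ → Ω → ℝ × ℝ), Model P X →
    ∀ (a β g w s : ℕ → ℝ) (δ : ℝ) (N M M' : ℕ),
      MeasurableSet {z : Ω × ℝ | ∀ n < N, nr δ (arg g w s (fun n => X n z.1) n z.2)} ∧
      MeasurableSet {z : Ω × ℝ | 1 ≤ |∑ n ∈ Ico M M', wave a β g w (fun n => X n z.1) n z.2|}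

/-- **VL1** (second moment method for the length of a random set). A measurable set `E ⊆ Ω × ℝ`, `T > 0`, all sections `E_t`,
`0 ≤ t ≤ T`, have probability `q > 0`, and `P (E_t ∩ E_t') ≤ q ^ 2 (1 + η)` for `t, t' ∈ [0, T]` with `|t - t'| ≥ Δ`. Then the
length of `{t ∈ [0, T] | (ω, t) ∈ E}` is less than `T q / 2` with probability at most `8 Δ / (T q) + 4 η`.
Proof. Let `Z ω` be the length. By Tonelli `E Z = T q =: m`, `E Z ^ 2 = ∫∫_{[0,T]^2} P (E_t ∩ E_t') dt dt' ≤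
2 Δ T q + T ^ 2 q ^ 2 (1 + η)` (for `|t - t'| < Δ` use `P (E_t ∩ E_t') ≤ q`; for fixed `t` these `t'` have length at most `2 Δ`).
So `E (Z - m) ^ 2 ≤ 2 Δ m + η m ^ 2` (`0 ≤ Z ≤ T` is bounded, integrable), and `Z < m / 2` implies `(Z - m) ^ 2 ≥ m ^ 2 / 4`;
Markov. -/
def P_VL1 : Prop :=
  ∀ (Ω : Type) [MeasurableSpace Ω] (P : Measure Ω) [IsProbabilityMeasure P] (E : Set (Ω × ℝ)) (T q η Δ : ℝ),
    MeasurableSet E → 0 < T → 0 < q → 0 ≤ η → 0 ≤ Δ →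
    (∀ t : ℝ, 0 ≤ t → t ≤ T → P {ω | (ω, t) ∈ E} = ENNReal.ofReal q) →
    (∀ t t' : ℝ, 0 ≤ t → t ≤ T → 0 ≤ t' → t' ≤ T → Δ ≤ |t - t'| →
      P {ω | (ω, t) ∈ E ∧ (ω, t') ∈ E} ≤ ENNReal.ofReal (q ^ 2 * (1 + η))) →
    P {ω | (volume : Measure ℝ) {t : ℝ | 0 ≤ t ∧ t ≤ T ∧ (ω, t) ∈ E} < ENNReal.ofReal (T * q / 2)} ≤
      ENNReal.ofReal (8 * Δ / (T * q) + 4 * η)

/-- **VL2** (first moment). If all sections `E_t`, `0 ≤ t ≤ T`, have probability at most `τ`, then the length of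
`{t ∈ [0, T] | (ω, t) ∈ E}` is at least `lam > 0` with probability at most `T τ / lam`. Proof: Tonelli and Markov
(`mul_meas_ge_le_lintegral`). -/
def P_VL2 : Prop :=
  ∀ (Ω : Type) [MeasurableSpace Ω] (P : Measure Ω) [IsProbabilityMeasure P] (E : Set (Ω × ℝ)) (T τ lam : ℝ),
    MeasurableSet E → 0 < T → 0 ≤ τ → 0 < lam →
    (∀ t : ℝ, 0 ≤ t → t ≤ T → P {ω | (ω, t) ∈ E} ≤ ENNReal.ofReal τ) →
    P {ω | ENNReal.ofReal lam ≤ (volume : Measure ℝ) {t : ℝ | 0 ≤ t ∧ t ≤ T ∧ (ω, t) ∈ E}} ≤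
      ENNReal.ofReal (T * τ / lam)

/-- **LOV.** For `T > 0`, `Δ > 0`, `0 < δ ≤ 1`, `N ≤ M`, `v > 0` with `∑_{N ≤ n < M} a n ^ 2 ≤ v`: the length of the set of the
`t ∈ [0, T]` at which the first `N` arguments are within `δ / 2` of integers and the sum of the waves `N ≤ n < M` is at most `1` in
absolute value, is less than `T δ ^ N / 4` with probability at most
`8 Δ / (T δ ^ N) + 4 (∏_{n<N} (1 + 2 π / (w n Δ)) - 1) + 8 exp (- 1 / (2 v))`.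
Proof. Let `E` be the set of the `(ω, t)` for which the arguments are near integers, `E'` the subset where the sum of the
waves is `≥ 1` in absolute value. VL1 for `E` with `q = δ ^ N`, `η = ∏ - 1` by AL: outside an event of probability
`8 Δ / (T q) + 4 η` the length for `E` is at least `T q / 2`. For each `t`, `P (E'_t) = P (E_t) P (1 ≤ |sum|) ≤ q · 2 exp (-1/(2v))`
by independence of `(X n)_{n<N}` and `(X n)_{N≤n<M}` (`iIndepFun.indepFun_finset`) and HOE with `lam = 1`; by VL2 with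
`lam = T q / 4` the length for `E'` is at least `T q / 4` with probability at most `8 exp (-1/(2v))`. Outside both events the
length for `E \ E'` is at least `T q / 2 - T q / 4`. -/
def P_LOV : Prop :=
  ∀ (Ω : Type) [MeasurableSpace Ω] (P : Measure Ω) (X : ℕ → Ω → ℝ × ℝ), Model P X →
    ∀ (a β g w s : ℕ → ℝ), (∀ n, 0 ≤ a n) → (∀ n, 0 < w n) → ∀ (δ Δ v T : ℝ), 0 < δ → δ ≤ 1 → 0 < Δ → 0 < v → 0 < T →
      ∀ N M : ℕ, N ≤ M → ∑ n ∈ Ico N M, a n ^ 2 ≤ v →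
      P {ω | (volume : Measure ℝ) {t : ℝ | 0 ≤ t ∧ t ≤ T ∧ (∀ n < N, nr δ (arg g w s (fun n => X n ω) n t)) ∧
          |∑ n ∈ Ico N M, wave a β g w (fun n => X n ω) n t| ≤ 1} < ENNReal.ofReal (T * δ ^ N / 4)} ≤
        ENNReal.ofReal (8 * Δ / (T * δ ^ N) + 4 * (∏ n ∈ range N, (1 + 2 * Real.pi / (w n * Δ)) - 1) +
          8 * Real.exp (-(1 / (2 * v))))

/-- **LBC.** Let `0 < δ < 1`, `0 < θ < 1`, `N = ⌈k ^ θ⌉`. Almost surely for all large `k` the length of the set of the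
`t ∈ [0, 2 ^ k]` at which the first `N` arguments are within `δ / 2` of integers and the sum of the waves `N ≤ n < N + k ^ 4` is
at most `1` in absolute value, is at least `2 ^ k δ ^ N / 4`.
Proof. LOV with `T = 2 ^ k`, `M = N + k ^ 4`, `Δ = (N + 2) ^ (A + L)`, `L` a natural number with `θ (L - 1) ≥ 2`, and `v = C N ^ (-1/2)`
(`Amp` with `ε = 1/2`, `C ≥ 1`). The three terms: `8 Δ / (2 ^ k δ ^ N)` = `8 (N+2)^(A+L) exp (- k log 2 + N log (1/δ))`, where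
`N ≤ k ^ θ + 1`, `θ < 1`, is at most `exp (- k / 2)` for large `k`; `4 (∏ - 1) ≤ 4 (exp (2 π N (N+1)^A / Δ) - 1) ≤
4 (exp (7 (N + 2) ^ (1 - L)) - 1) ≤ 56 (N+2) ^ (1-L) ≤ 56 k ^ (- θ (L - 1)) ≤ 56 / k ^ 2` (as in LOB; `N ≥ k ^ θ`), and
`8 exp (- N ^ (1/2) / (2 C)) ≤ 8 exp (- k ^ (θ/2) / (2 C))`. All are summable in `k` (`exp (-c k ^ (θ/2))` is
`O (k ^ (-2))`); Borel–Cantelli. -/
def P_LBC : Prop :=
  ∀ (Ω : Type) [MeasurableSpace Ω] (P : Measure Ω) (X : ℕ → Ω → ℝ × ℝ), Model P X →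
    ∀ (a β g w s : ℕ → ℝ) (A : ℕ), Amp a → Win A g w → ∀ δ θ : ℝ, 0 < δ → δ < 1 → 0 < θ → θ < 1 →
      ∀ᵐ ω ∂P, ∀ᶠ k : ℕ in atTop, ENNReal.ofReal (2 ^ k * δ ^ Nk θ k / 4) ≤
        (volume : Measure ℝ) {t : ℝ | 0 ≤ t ∧ t ≤ 2 ^ k ∧ (∀ n < Nk θ k, nr δ (arg g w s (fun n => X n ω) n t)) ∧
          |∑ n ∈ Ico (Nk θ k) (Nk θ k + k ^ 4), wave a β g w (fun n => X n ω) n t| ≤ 1}

/-- **UBC.** Let `0 < θ < 1`, `0 < p < 1`, `N = ⌈k ^ θ⌉`. Almost surely for all large `k` the length of the set of the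
`t ∈ [0, 2 ^ k]` at which the sum of the waves `N ≤ n < N + k ^ 4` is at least `1` in absolute value, is at most
`2 ^ k exp (- N ^ p)`.
Proof. By HOE with `lam = 1` and `v = C N ^ (-p')`, `p' = (1 + p) / 2` (`Amp` with `ε = 1 - p'`, `C ≥ 1`), for each `t` the probability
is at most `2 exp (- N ^ p' / (2 C))`; by VL2 with `T = 2 ^ k`, `lam = 2 ^ k exp (- N ^ p)` the statement fails for `k` with
probability at most `2 exp (N ^ p - N ^ p' / (2 C)) ≤ 2 exp (- N ^ p)` for large `k` (`N ^ p' / (2 C) ≥ 2 N ^ p` for large `N`), and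
`N ≥ k ^ θ`; `exp (- k ^ (θ p))` is summable; Borel–Cantelli. -/
def P_UBC : Prop :=
  ∀ (Ω : Type) [MeasurableSpace Ω] (P : Measure Ω) (X : ℕ → Ω → ℝ × ℝ), Model P X →
    ∀ (a β g w : ℕ → ℝ), Amp a → ∀ p θ : ℝ, 0 < p → p < 1 → 0 < θ → θ < 1 →
      ∀ᵐ ω ∂P, ∀ᶠ k : ℕ in atTop,
        (volume : Measure ℝ) {t : ℝ | 0 ≤ t ∧ t ≤ 2 ^ k ∧
          1 ≤ |∑ n ∈ Ico (Nk θ k) (Nk θ k + k ^ 4), wave a β g w (fun n => X n ω) n t|} ≤
        ENNReal.ofReal (2 ^ k * Real.exp (-((Nk θ k : ℝ) ^ p)))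

/-- **LCV.** Almost surely, for both signs `σ`, all `0 < c < 1` and all rational `0 < θ < 1` there is `D > 0` such that for all
large `k`, with `N = ⌈k ^ θ⌉`, the length of the set of the `t ∈ [0, 2 ^ k]` with `c R a N ≤ σ part W N t` and
`|∑_{N ≤ n < N + k^4} W n t| ≤ 1` is at least `2 ^ k exp (- D N) / 4` (`W` = the waves).
Proof. As LOC: LBC for all `δ = 1 / (i + 3)`, all rational `θ` and the shifts `s n = β n / (2 π)` (`σ = 1`) and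
`s n = β n / (2 π) + 1 / 2` (`σ = -1`), countably many almost sure statements; given `c` choose `i` with `cos (π / (i+3)) ≥ c`; if the
first `N` arguments are within `δ / 2` of integers then `σ part W N t ≥ cos (π δ) R a N ≥ c R a N` by ARC (1) (`R a N ≥ 0`);
`D = log (1/δ)`, `δ ^ N = exp (- D N)`. Monotonicity of the measure. -/
def P_LCV : Prop :=
  ∀ (Ω : Type) [MeasurableSpace Ω] (P : Measure Ω) (X : ℕ → Ω → ℝ × ℝ), Model P X →
    ∀ (a β g w : ℕ → ℝ) (A : ℕ), Amp a → Win A g w →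
      ∀ᵐ ω ∂P, ∀ σ : ℝ, (σ = 1 ∨ σ = -1) → ∀ c : ℝ, 0 < c → c < 1 → ∀ θ : ℚ, 0 < θ → θ < 1 → ∃ D : ℝ, 0 < D ∧
        ∀ᶠ k : ℕ in atTop, ENNReal.ofReal (2 ^ k * Real.exp (-(D * Nk θ k)) / 4) ≤
          (volume : Measure ℝ) {t : ℝ | 0 ≤ t ∧ t ≤ 2 ^ k ∧
            c * R a (Nk θ k) ≤ σ * part (wave a β g w (fun n => X n ω)) (Nk θ k) t ∧
            |∑ n ∈ Ico (Nk θ k) (Nk θ k + k ^ 4), wave a β g w (fun n => X n ω) n t| ≤ 1}

/-- **DLO** (deterministic). `UT W S`, `σ = ± 1`, the conclusion of LCV holds for `σ`, `κ > 0`, `b > 0`,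
`R a N / (log N) ^ κ → b`. Then for `0 < θ < 1` and `ε > 0`, for all large `T`, the length of
`{t ∈ [0, T] | θ b (log log T) ^ κ ≤ σ S t}` is at least `T exp (- (log T) ^ (θ ^ (1/κ) + ε))`.
Proof. `θ ^ (1/κ) < 1`. Choose a rational `θ'` with `θ ^ (1/κ) < θ' < min 1 (θ ^ (1/κ) + ε)`, then `0 < c < 1` with
`c θ' ^ κ > θ` and then `0 < b' < b` with `c b' θ' ^ κ > θ b`. For large `T` let `k = ⌊log T / log 2⌋₊`, so that
`2 ^ k ≤ T < 2 ^ (k+1)`, and `N = ⌈k ^ θ'⌉`. For the `t` of the set in LCV (for `θ'`): `S t = part W N t + ∑_{N≤n<N+k^4} W n t +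
(S t - part W (N + k ^ 4) t)`; the last term is at most `1` in absolute value for large `k`, by `UT` with `m = 0` (`pe 0 = 1/2`)
and `J = Nat.log 2 (k^4)`: `K 2 ^ (- J / 4) √(J + k + 1) ≤ 2 K k ^ (-1) √(3 k) → 0` (`2 ^ (J+1) > k ^ 4`, `J ≤ k` for large `k`).
So `σ S t ≥ c R a N - 2 ≥ c b' (log N) ^ κ - 2 ≥ c b' (θ' log k) ^ κ - 2 ≥ θ b (log (k+1)) ^ κ ≥ θ b (log log T) ^ κ` for large `k`
(`log T ≤ (k+1) log 2 ≤ k + 1`). So the length is at least `2 ^ k exp (- D N) / 4 ≥ T exp (- D (k ^ θ' + 1)) / 8 ≥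
T exp (- (log T) ^ (θ ^ (1/κ) + ε))` for large `T`, because `k ≤ log T / log 2` and `θ' < θ ^ (1/κ) + ε`. -/
def P_DLO : Prop :=
  ∀ (W : ℕ → ℝ → ℝ) (S : ℝ → ℝ) (a : ℕ → ℝ) (σ κ b : ℝ), (σ = 1 ∨ σ = -1) → (∀ n, 0 ≤ a n) → UT W S → 0 < κ → 0 < b →
    Tendsto (fun N : ℕ => R a N / Real.log N ^ κ) atTop (𝓝 b) →
    (∀ c : ℝ, 0 < c → c < 1 → ∀ θ : ℚ, 0 < θ → θ < 1 → ∃ D : ℝ, 0 < D ∧
      ∀ᶠ k : ℕ in atTop, ENNReal.ofReal (2 ^ k * Real.exp (-(D * Nk θ k)) / 4) ≤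
        (volume : Measure ℝ) {t : ℝ | 0 ≤ t ∧ t ≤ 2 ^ k ∧ c * R a (Nk θ k) ≤ σ * part W (Nk θ k) t ∧
          |∑ n ∈ Ico (Nk θ k) (Nk θ k + k ^ 4), W n t| ≤ 1}) →
    ∀ θ ε : ℝ, 0 < θ → θ < 1 → 0 < ε → ∀ᶠ T : ℝ in atTop,
      ENNReal.ofReal (T * Real.exp (-(Real.log T ^ (θ ^ (1 / κ) + ε)))) ≤
        (volume : Measure ℝ) {t : ℝ | 0 ≤ t ∧ t ≤ T ∧ θ * b * Real.log (Real.log T) ^ κ ≤ σ * S t}

/-- **DUP** (deterministic). `UT W S`, `|part W N t| ≤ R a N`, `R a N / (log N) ^ κ → b > 0`, `κ > 0`, and for all rational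
`0 < θ < 1`, `0 < p < 1`, for all large `k` the bound of UBC. Then for `0 < θ < 1` and `ε > 0`, for all large `T`, the length of
`{t ∈ [0, T] | θ b (log log T) ^ κ ≤ |S t|}` is at most `T exp (- (log T) ^ (θ ^ (1/κ) - ε))`.
Proof. We may take `ε < θ ^ (1/κ)` (decreasing `ε` makes the claim stronger for `T ≥ e`). Choose rationals `θ' < θ ^ (1/κ)` and
`p < 1` with `θ' p > θ ^ (1/κ) - ε`, and `b' > b` with `b' θ' ^ κ < θ b`. For large `T` let `k = ⌈log T / log 2⌉₊`, `T ≤ 2 ^ k ≤ 2 T`,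
`N = ⌈k ^ θ'⌉`. As in DLO `|S t - part W (N + k ^ 4) t| ≤ 1` for `t ∈ [0, 2 ^ k]` and large `k`. So if
`|S t| ≥ θ b (log log T) ^ κ`, then `|∑_{N≤n<N+k^4} W n t| ≥ θ b (log log T) ^ κ - R a N - 1 ≥ 1` for large `T`, because
`R a N ≤ b' (log N) ^ κ ≤ b' (θ' log k + 1) ^ κ` (`N ≤ k ^ θ' + 1 ≤ 2 k ^ θ'`) and `log log T ≥ log k - 1` for large `T`
(`k ≤ log T / log 2 + 1`). Hence the length is at most `2 ^ k exp (- N ^ p) ≤ 2 T exp (- k ^ (θ' p)) ≤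
T exp (- (log T) ^ (θ ^ (1/κ) - ε))` for large `T` (`k ≥ log T`). -/
def P_DUP : Prop :=
  ∀ (W : ℕ → ℝ → ℝ) (S : ℝ → ℝ) (a : ℕ → ℝ) (κ b : ℝ), (∀ n, 0 ≤ a n) → UT W S → (∀ N t, |part W N t| ≤ R a N) →
    0 < κ → 0 < b → Tendsto (fun N : ℕ => R a N / Real.log N ^ κ) atTop (𝓝 b) →
    (∀ p θ : ℚ, 0 < p → p < 1 → 0 < θ → θ < 1 → ∀ᶠ k : ℕ in atTop,
      (volume : Measure ℝ) {t : ℝ | 0 ≤ t ∧ t ≤ 2 ^ k ∧ 1 ≤ |∑ n ∈ Ico (Nk θ k) (Nk θ k + k ^ 4), W n t|} ≤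
        ENNReal.ofReal (2 ^ k * Real.exp (-((Nk θ k : ℝ) ^ (p : ℝ))))) →
    ∀ θ ε : ℝ, 0 < θ → θ < 1 → 0 < ε → ∀ᶠ T : ℝ in atTop,
      (volume : Measure ℝ) {t : ℝ | 0 ≤ t ∧ t ≤ T ∧ θ * b * Real.log (Real.log T) ^ κ ≤ |S t|} ≤
        ENNReal.ofReal (T * Real.exp (-(Real.log T ^ (θ ^ (1 / κ) - ε))))

end Pool.Agent.H705.RO
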