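import Pool.Agent.H705.RO.Asm
import Pool.Agent.H705.RO.Stm2

/-! # The frequency of the large values: the theorem from its parts -/

set_option autoImplicit false

namespace Pool.Agent.H705.RO

open MeasureTheory ProbabilityTheory Filter Topology Finset

/-- the final statement -/
def Main2 : Prop :=
    ∀ (Ω : Type) [MeasurableSpace Ω] (P : Measure Ω) (X : ℕ → Ω → ℝ × ℝ), Model P X →
      ∀ (A : ℕ) (g w : ℕ → ℝ), Win A g w → ∀ (a β : ℕ → ℝ), Amp a → ∀ κ b : ℝ, 0 < κ → 0 < b →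
        Tendsto (fun N : ℕ => R a N / Real.log N ^ κ) atTop (𝓝 b) →
        ∀ᵐ ω ∂P, ∃ S : ℝ → ℝ,
          (∀ t : ℝ, 0 ≤ t → Tendsto (fun N : ℕ => ∑ n ∈ range N,
            a n * Real.cos ((g n + w n * (X n ω).1) * t + 2 * Real.pi * (X n ω).2 + β n)) atTop (𝓝 (S t))) ∧
          (∀ θ ε : ℝ, 0 < θ → θ < 1 → 0 < ε → ∀ᶠ T : ℝ in atTop,
            ENNReal.ofReal (T * Real.exp (-(Real.log T ^ (θ ^ (1 / κ) + ε)))) ≤
              (volume : Measure ℝ) {t : ℝ | 0 ≤ t ∧ t ≤ T ∧ θ * b * Real.log (Real.log T) ^ κ ≤ S t} ∧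
            ENNReal.ofReal (T * Real.exp (-(Real.log T ^ (θ ^ (1 / κ) + ε)))) ≤
              (volume : Measure ℝ) {t : ℝ | 0 ≤ t ∧ t ≤ T ∧ θ * b * Real.log (Real.log T) ^ κ ≤ -S t} ∧
            (volume : Measure ℝ) {t : ℝ | 0 ≤ t ∧ t ≤ T ∧ θ * b * Real.log (Real.log T) ^ κ ≤ |S t|} ≤
              ENNReal.ofReal (T * Real.exp (-(Real.log T ^ (θ ^ (1 / κ) - ε))))) ∧
          ∀ θ : ℝ, 1 < θ → ∀ᶠ T : ℝ in atTop, ∀ t : ℝ, 0 ≤ t → t ≤ T →
            |S t| < θ * b * Real.log (Real.log T) ^ κ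

theorem above {S : ℝ → ℝ} {κ b₁ b₂ : ℝ} (hS : ContinuousOn S (Set.Ici 0)) (hκ : 0 < κ) (hb : b₁ < b₂) (hb0 : 0 ≤ b₁)
    (h : ∀ᶠ t : ℝ in atTop, |S t| ≤ b₁ * Real.log (Real.log t) ^ κ) :
    ∀ᶠ T : ℝ in atTop, ∀ t : ℝ, 0 ≤ t → t ≤ T → |S t| < b₂ * Real.log (Real.log T) ^ κ := by
  obtain ⟨t₀, ht₀⟩ := eventually_atTop.1 h
  have hll : Tendsto (fun T : ℝ => Real.log (Real.log T) ^ κ) atTop atTop :=
    (tendsto_rpow_atTop hκ).comp (Real.tendsto_log_atTop.comp Real.tendsto_log_atTop)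
  obtain ⟨C, hC⟩ := (isCompact_Icc (a := (0 : ℝ)) (b := max t₀ (Real.exp 1))).exists_bound_of_continuousOn
    (f := S) (hS.mono fun x hx => hx.1)
  have hb2 : 0 < b₂ := lt_of_le_of_lt hb0 hb
  filter_upwards [hll.eventually_gt_atTop (C / b₂), hll.eventually_gt_atTop 0, eventually_ge_atTop (Real.exp 1)]
    with T h1 h2 h3 t ht0 htT
  rcases le_total t (max t₀ (Real.exp 1)) with h4 | h4
  · have h5 := hC t ⟨ht0, h4⟩
    rw [Real.norm_eq_abs] at h5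
    rw [div_lt_iff₀ hb2] at h1
    linarith [mul_comm b₂ (Real.log (Real.log T) ^ κ)]
  · have h5 : t₀ ≤ t := (le_max_left _ _).trans h4
    have h6 : Real.exp 1 ≤ t := (le_max_right _ _).trans h4
    have h7 : 1 ≤ Real.log t := by
      rw [Real.le_log_iff_exp_le (lt_of_lt_of_le (Real.exp_pos 1) h6)]
      exact h6
    have h8 : Real.log t ≤ Real.log T := Real.log_le_log (lt_of_lt_of_le (Real.exp_pos 1) h6) htT
    have h9 : Real.log (Real.log t) ^ κ ≤ Real.log (Real.log T) ^ κ :=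
      Real.rpow_le_rpow (Real.log_nonneg h7) (Real.log_le_log (by linarith) h8) hκ.le
    calc |S t| ≤ b₁ * Real.log (Real.log t) ^ κ := ht₀ t h5
      _ ≤ b₁ * Real.log (Real.log T) ^ κ := mul_le_mul_of_nonneg_left h9 hb0
      _ < b₂ * Real.log (Real.log T) ^ κ := mul_lt_mul_of_pos_right hb h2

theorem main2_of (hTAIL : P_TAIL) (hUP : P_UP) (hLCV : P_LCV) (hUBC : P_UBC) (hDLO : P_DLO) (hDUP : P_DUP) : Main2 := by
  intro Ω _ P X hX A g w hw a β ha κ b hκ hb hT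
  have hU : ∀ᵐ ω ∂P, ∀ p θ : ℚ, 0 < p → p < 1 → 0 < θ → θ < 1 → ∀ᶠ k : ℕ in atTop,
      (volume : Measure ℝ) {t : ℝ | 0 ≤ t ∧ t ≤ 2 ^ k ∧
        1 ≤ |∑ n ∈ Ico (Nk θ k) (Nk θ k + k ^ 4), wave a β g w (fun n => X n ω) n t|} ≤
      ENNReal.ofReal (2 ^ k * Real.exp (-((Nk θ k : ℝ) ^ (p : ℝ)))) := by
    rw [ae_all_iff]
    intro p
    rw [ae_all_iff]
    intro θ
    by_cases h : 0 < p ∧ p < 1 ∧ 0 < θ ∧ θ < 1
    · filter_upwards [hUBC Ω P X hX a β g w ha (p : ℝ) (θ : ℝ) (by exact_mod_cast h.1) (by exact_mod_cast h.2.1)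
        (by exact_mod_cast h.2.2.1) (by exact_mod_cast h.2.2.2)] with ω hω _ _ _ _
      exact hω
    · exact Filter.Eventually.of_forall fun ω h1 h2 h3 h4 => absurd ⟨h1, h2, h3, h4⟩ h
  filter_upwards [hTAIL Ω P X hX a β g w A ha hw, hLCV Ω P X hX a β g w A ha hw, hU] with ω h1 h2 h3
  obtain ⟨S, hS1, hS2, hS3⟩ := h1
  refine ⟨S, fun t ht => hS1 t ht, ?_, ?_⟩
  · intro θ ε hθ hθ1 hε
    have k1 := hDLO _ S a 1 κ b (Or.inl rfl) ha.1 hS3 hκ hb hT (h2 1 (Or.inl rfl)) θ ε hθ hθ1 hε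
    have k2 := hDLO _ S a (-1) κ b (Or.inr rfl) ha.1 hS3 hκ hb hT (h2 (-1) (Or.inr rfl)) θ ε hθ hθ1 hε
    have k3 := hDUP _ S a κ b ha.1 hS3 (part_le a β g w ha.1 _) hκ hb hT h3 θ ε hθ hθ1 hε
    filter_upwards [k1, k2, k3] with T l1 l2 l3
    refine ⟨?_, ?_, l3⟩
    · simpa only [one_mul] using l1
    · simpa only [neg_one_mul] using l2
  · intro θ hθ
    have hb1 : b < θ * b := by nlinarith
    obtain ⟨b₁, hb1', hb1''⟩ := exists_between hb1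
    obtain ⟨b₂, hb2', hb2''⟩ := exists_between hb1''
    have hev : ∀ᶠ N : ℕ in atTop, R a N ≤ b₁ * Real.log N ^ κ := by
      filter_upwards [hT.eventually_lt_const hb1', eventually_gt_atTop 1] with N hN hN1
      have hpos : 0 < Real.log (N : ℝ) ^ κ :=
        Real.rpow_pos_of_pos (Real.log_pos (by exact_mod_cast hN1)) κ
      rw [div_lt_iff₀ hpos] at hN
      exact hN.le
    exact above hS2 hκ hb2'' (by linarith)
      (hUP _ S a κ b₁ b₂ hS3 (part_le a β g w ha.1 _) hκ (by linarith) hb2' hev)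

end Pool.Agent.H705.RO
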