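import Pool.Agent.H705.RO.Stm

/-! # Prime counting with the phases of the zeros randomised: short intervals. The parts of the proof

`ψ (x) = x - ∑_n 2 Re (x ^ ρ_n / ρ_n · exp (2 π i v_n))`, `ρ_n = 1/2 + i γ_n`, with arbitrary fixed ordinates `γ_n` (for instance
those of the zeros of zeta) and independent uniform phases `v_n = (X n).2`. Every `P_X` is one part; its docstring is a complete
paper proof. `P_HOE` of `Pool.Agent.H705.RO.Stm` is proved and may be used as a hypothesis. -/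

set_option autoImplicit false

namespace Pool.Agent.H705.RO

open MeasureTheory ProbabilityTheory Filter Topology Finset

/-- the zero `1/2 + i γ` -/
noncomputable def rh (γ : ℝ) : ℂ := 1 / 2 + (γ : ℂ) * Complex.I

/-- amplitudes `2 / |ρ_n|` -/
noncomputable def am (γ : ℕ → ℝ) (n : ℕ) : ℝ := 2 / ‖rh (γ n)‖

/-- phases `- arg ρ_n` -/
noncomputable def be (γ : ℕ → ℝ) (n : ℕ) : ℝ := -Complex.arg (rh (γ n))

/-- ordinates: `γ n ≥ 1`, `γ n ≥ c (n + 2) / log (n + 2)`, `γ n ≤ (n + 2) ^ A` -/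
def Ord (c : ℝ) (A : ℕ) (γ : ℕ → ℝ) : Prop :=
  ∀ n : ℕ, 1 ≤ γ n ∧ c * ((n : ℝ) + 2) / Real.log ((n : ℝ) + 2) ≤ γ n ∧ γ n ≤ ((n : ℝ) + 2) ^ A

/-- the `n`-th wave of `ψ` in the variable `t = log x` (the ordinates are not random) -/
noncomputable def zw (γ : ℕ → ℝ) (x : ℕ → ℝ × ℝ) : ℕ → ℝ → ℝ := wave (am γ) (be γ) γ (fun _ => 0) x

/-- **IDN** (elementary). (1) For `x ≥ 1`, `γ ≥ 1` and real `v`:
`√x · (2 / |ρ|) cos (γ log x + 2 π v - arg ρ) = 2 Re (x ^ ρ / ρ · exp (2 π i v))`, `ρ = 1/2 + i γ`.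
(2) For `1 ≤ x ≤ y` there is a complex number `c` (namely `(y ^ ρ - x ^ ρ) / ρ`) with `|c| ≤ (y - x) / √x`, `|c| ≤ 2 √y / γ` and
`√y (2/|ρ|) cos (γ log y + 2 π v - arg ρ) - √x (2/|ρ|) cos (γ log x + 2 π v - arg ρ) = 2 |c| cos (2 π v + arg c)` for all real `v`.
Proof. (1) `x ^ ρ = √x exp (i γ log x)`, `1 / ρ = |ρ|^(-1) exp (- i arg ρ)`, take real parts. (2) By (1) the left side is
`2 Re (c exp (2 π i v))` and `c = |c| exp (i arg c)`. `|c| ≤ (|y ^ ρ| + |x ^ ρ|) / |ρ| ≤ 2 √y / γ` as `|ρ| ≥ γ`. And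
`c = ∫_x^y s ^ (ρ - 1) ds` with `|s ^ (ρ - 1)| = s ^ (-1/2) ≤ x ^ (-1/2)` (`integral_cpow`, or the mean value inequality for
`s ↦ s ^ ρ / ρ`, whose derivative is `s ^ (ρ - 1)`). -/
def P_IDN : Prop :=
  (∀ x γ v : ℝ, 1 ≤ x → 1 ≤ γ →
    Real.sqrt x * (2 / ‖rh γ‖ * Real.cos (γ * Real.log x + 2 * Real.pi * v + -Complex.arg (rh γ))) =
      2 * ((x : ℂ) ^ (rh γ) / rh γ * Complex.exp (2 * (Real.pi : ℂ) * Complex.I * (v : ℂ))).re) ∧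
  ∀ γ x y : ℝ, 1 ≤ γ → 1 ≤ x → x ≤ y → ∃ c : ℂ, ‖c‖ ≤ (y - x) / Real.sqrt x ∧ ‖c‖ ≤ 2 * Real.sqrt y / γ ∧
    ∀ v : ℝ, Real.sqrt y * (2 / ‖rh γ‖ * Real.cos (γ * Real.log y + 2 * Real.pi * v + -Complex.arg (rh γ))) -
      Real.sqrt x * (2 / ‖rh γ‖ * Real.cos (γ * Real.log x + 2 * Real.pi * v + -Complex.arg (rh γ))) =
      2 * ‖c‖ * Real.cos (2 * Real.pi * v + Complex.arg c)

/-- **VAR.** For `c₀ > 0` there is `K > 0` such that for all `γ n > 0` with `γ n ≥ c₀ (n+2) / log (n+2)`, all `x ≥ 2`,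
`x + 1/2 ≤ y ≤ 2 x + 1` and all `M`: `∑_{n<M} min ((y-x)/√x) (2 √y / γ n) ^ 2 ≤ K (y - x) log x`.
Proof. Let `H = y - x`, `1/2 ≤ H ≤ x + 1 ≤ 2 x`, `y ≤ 3 x`, `Y = (x / H) log x` (so `Y ≥ (1/2) log 2 > 0` and `Y ≤ 2 x log x`). The terms
with `n ≤ Y` are at most `H ^ 2 / x` each, and there are at most `Y + 1 ≤ 4 Y` of them: at most `4 H log x` in total. The terms
with `n > Y` are at most `4 y / γ n ^ 2 ≤ 12 x log (n+2) ^ 2 / (c₀ ^ 2 (n+2) ^ 2)`. For `t ≥ s ≥ 2` one has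
`log t / t ^ (1/4) ≤ 4 log s / s ^ (1/4)` (the function `log t / t ^ (1/4)` decreases for `t ≥ e ^ 4`, its maximum is `4/e ≤ 1.5` and on
`[2, e ^ 4]` it is at least `0.5`), so `log (n+2) ^ 2 ≤ 16 log (Y+2) ^ 2 ((n+2)/(Y+2)) ^ (1/2)` and
`∑_{n > Y} log (n+2)^2/(n+2)^2 ≤ 16 log (Y+2)^2 (Y+2)^(-1/2) ∑_{n > Y} (n+2)^(-3/2) ≤ 16 log (Y+2)^2 (Y+2)^(-1/2) · 2 (Y+1)^(-1/2) ≤
32 log (Y+2)^2 / Y`. So these terms give at most `384 c₀ ^ (-2) x log (Y+2)^2 H / (x log x)`, and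
`log (Y + 2) ≤ log (2 x log x + 2) ≤ log (4 x ^ 2) ≤ 4 log x` for `x ≥ 2`. Total at most `(4 + 6144 c₀ ^ (-2)) H log x`. (Any other
way to estimate the tail sum is as good, e.g. dyadic blocks; the constant does not matter.) -/
def P_VAR : Prop :=
  ∀ c₀ : ℝ, 0 < c₀ → ∃ K : ℝ, 0 < K ∧ ∀ γ : ℕ → ℝ, (∀ n, 1 ≤ γ n) →
    (∀ n : ℕ, c₀ * ((n : ℝ) + 2) / Real.log ((n : ℝ) + 2) ≤ γ n) →
    ∀ x y : ℝ, 2 ≤ x → x + 1 / 2 ≤ y → y ≤ 2 * x + 1 → ∀ M : ℕ,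
      ∑ n ∈ range M, (min ((y - x) / Real.sqrt x) (2 * Real.sqrt y / γ n)) ^ 2 ≤ K * (y - x) * Real.log x

/-- **GRD.** For `c₀ > 0` there is `C > 0` such that in every model and for all ordinates with `Ord c₀ A γ` almost surely for all large
`j`, with `N = 8 ^ (j+1)`, for all points `x = i / 32 ^ j`, `y = i' / 32 ^ j` with `2 ^ j ≤ x ≤ 2 ^ (j+1)`, `x + 1/2 ≤ y ≤ 2 x + 1`:
`|√y part (zw γ) N (log y) - √x part (zw γ) N (log x)| ≤ C √(y - x) log x`.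
Proof. Let `K` be the constant of VAR and `C = √(160 K)`. Fix `j ≥ 1` and a pair `(x, y)`. By IDN (2), for every `n` there is a complex number
`c_n` with `√y zw n (log y) - √x zw n (log x) = 2 |c_n| cos (2 π v_n + arg c_n)`, which is
`wave a' β' 0 0 (X · ω) n 0` with `a' n = 2 |c_n|`, `β' n = arg c_n`; `∑_{n<N} a' n ^ 2 ≤ 4 K (y-x) log x =: v` by VAR. HOE with
`lam = C √(y-x) log x`: `lam ^ 2 / (2 v) = C ^ 2 log x / (8 K) = 20 log x ≥ 20 j log 2`, so the probability that the bound fails for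
`(x, y)` is at most `2 · 2 ^ (-20 j)`. There are at most `2 ^ (j+1) 32 ^ j + 1 ≤ 2 ^ (6 j + 2)` values of `i` and at most
`(2 · 2 ^ (j+1) + 1) 32 ^ j + 1 ≤ 2 ^ (6 j + 3)` values of `i'`. So the probability that it fails for some pair is at most
`2 ^ (12 j + 6 - 20 j)`, summable; Borel–Cantelli. -/
def P_GRD : Prop :=
  ∀ c₀ : ℝ, 0 < c₀ → ∃ C : ℝ, 0 < C ∧
    ∀ (Ω : Type) [MeasurableSpace Ω] (P : Measure Ω) (X : ℕ → Ω → ℝ × ℝ), Model P X →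
      ∀ (A : ℕ) (γ : ℕ → ℝ), Ord c₀ A γ → ∀ᵐ ω ∂P, ∀ᶠ j : ℕ in atTop, ∀ (i i' : ℕ) (x y : ℝ),
        x = (i : ℝ) / 32 ^ j → y = (i' : ℝ) / 32 ^ j → 2 ^ j ≤ x → x ≤ 2 ^ (j + 1) → x + 1 / 2 ≤ y → y ≤ 2 * x + 1 →
        |Real.sqrt y * part (zw γ (fun n => X n ω)) (8 ^ (j + 1)) (Real.log y) -
          Real.sqrt x * part (zw γ (fun n => X n ω)) (8 ^ (j + 1)) (Real.log x)| ≤
          C * Real.sqrt (y - x) * Real.log x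

/-- **TL0** = `P_TAIL` with `w n ≥ 0` in place of a positive lower bound. The proof of `P_TAIL`
(`Pool.Agent.H339.RO.T_TAIL`, in the archive) uses only `|g n + w n u| ≤ 2 (n+2)^A` for `0 ≤ u ≤ 1`; copy it with the obvious
change. -/
def P_TL0 : Prop :=
  ∀ (Ω : Type) [MeasurableSpace Ω] (P : Measure Ω) (X : ℕ → Ω → ℝ × ℝ), Model P X →
    ∀ (a β g w : ℕ → ℝ) (A : ℕ), Amp a → (∀ n : ℕ, |g n| ≤ ((n : ℝ) + 2) ^ A ∧ 0 ≤ w n ∧ w n ≤ 1) →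
      ∀ᵐ ω ∂P, ∃ S : ℝ → ℝ,
        (∀ t, 0 ≤ t → Tendsto (fun N => part (wave a β g w (fun n => X n ω)) N t) atTop (𝓝 (S t))) ∧
        ContinuousOn S (Set.Ici 0) ∧ UT (wave a β g w (fun n => X n ω)) S

/-- **AMZ.** If `Ord c A γ` with `c > 0` then the amplitudes `2 / |ρ_n|` satisfy `Amp`, and `am γ n ≤ 2`, `am γ n * γ n ≤ 2`.
Proof. `|ρ_n| ≥ γ n ≥ 1`, so `am γ n ≤ 2 / γ n`, whence the last two claims, and `am γ n ^ 2 ≤ 4 log (n+2) ^ 2 / (c ^ 2 (n+2) ^ 2)`. Let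
`ε > 0`; we may assume `ε ≤ 1/2` (`N ^ (-1+ε)` increases with `ε` for `N ≥ 1`). `log (n+2) ^ 2 ≤ (2/ε) ^ 2 (n+2) ^ ε` (`Real.log_le_rpow_div`), and
`∑_{n ≥ N} (n+2) ^ (-2+ε) ≤ (N+1) ^ (-1+ε) / (1 - ε) ≤ 2 N ^ (-1+ε)` (finite sums; telescoping or integral comparison). -/
def P_AMZ : Prop :=
  ∀ (c : ℝ) (A : ℕ) (γ : ℕ → ℝ), 0 < c → Ord c A γ → Amp (am γ) ∧ ∀ n, am γ n ≤ 2 ∧ am γ n * γ n ≤ 2

/-- **CON** (deterministic). `W n` with `|W n t| ≤ 2`, `|W n t - W n t'| ≤ 2 |t - t'|`, `UT W S`, and for all large `j`, `N = 8 ^ (j+1)`,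
the bound of GRD with the constant `C > 0`. Then for all large `x` and all `1 ≤ h ≤ x`:
`|√(x+h) S (log (x+h)) - √x S (log x)| ≤ (C + 1) √h log x`.
Proof. Let `2 ^ j ≤ x < 2 ^ (j+1)`, `y = x + h ≤ 2 x`, `N = 8 ^ (j+1)`, `x' = ⌈32^j x⌉ / 32^j`, `y' = ⌈32^j y⌉ / 32^j`. Then
`2 ^ j ≤ x ≤ x' ≤ 2 ^ (j+1)`, `x' ≤ x + 32^(-j)`, `y ≤ y' ≤ y + 32^(-j)`, so `y' - x' ≥ h - 32^(-j) ≥ 1/2` and
`y' ≤ 2 x + 1 ≤ 2 x' + 1`. Write `f z = √z part W N (log z)`. For `1 ≤ z ≤ z' ≤ z + 1`: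
`|√z W n (log z) - √z' W n (log z')| ≤ |√z - √z'| 2 + √z' · 2 |log z - log z'| ≤ 2 (z'-z) + 2 √z' (z'-z)/z ≤ 6 (z' - z)`, so
`|f z - f z'| ≤ 6 N (z' - z)`; hence `|f x - f x'| + |f y - f y'| ≤ 12 · 8^(j+1) 32^(-j) → 0`. By UT with `m = 0` (`pe 0 = 1/2`),
`J = 3 (j+1)`, `k = j + 2` (`log y ≤ y ≤ 2 ^ (j+2)`): `√y |S (log y) - part W N (log y)| ≤ 2 ^ ((j+2)/2) K 2 ^ (-3(j+1)/4) √(4 j + 6)
→ 0`, the same for `x`. And `|f y' - f x'| ≤ C √(y'-x') log x' ≤ C √(h + 32^(-j)) log (x + 32^(-j)) ≤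
C (1 + 32^(-j)) √h (log x + 32^(-j)) ≤ C √h log x + C √h (32^(-j) log x + 2 · 32^(-j))`, where `32^(-j) log x → 0`. All the error terms
together are at most `√h log x` for large `x`. -/
def P_CON : Prop :=
  ∀ (W : ℕ → ℝ → ℝ) (S : ℝ → ℝ) (C : ℝ), 0 < C → (∀ n t, |W n t| ≤ 2) →
    (∀ (n : ℕ) (t t' : ℝ), |W n t - W n t'| ≤ 2 * |t - t'|) → UT W S →
    (∀ᶠ j : ℕ in atTop, ∀ (i i' : ℕ) (x y : ℝ),
        x = (i : ℝ) / 32 ^ j → y = (i' : ℝ) / 32 ^ j → 2 ^ j ≤ x → x ≤ 2 ^ (j + 1) → x + 1 / 2 ≤ y → y ≤ 2 * x + 1 →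
        |Real.sqrt y * part W (8 ^ (j + 1)) (Real.log y) - Real.sqrt x * part W (8 ^ (j + 1)) (Real.log x)| ≤
          C * Real.sqrt (y - x) * Real.log x) →
    ∀ᶠ x : ℝ in atTop, ∀ h : ℝ, 1 ≤ h → h ≤ x →
      |Real.sqrt (x + h) * S (Real.log (x + h)) - Real.sqrt x * S (Real.log x)| ≤ (C + 1) * Real.sqrt h * Real.log x

end Pool.Agent.H705.RO
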