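import Pool.Agent.H705.RO.Asm
import Pool.Agent.H705.RO.Stm3

/-! # Prime counting with the phases of the zeros randomised: the theorem from its parts -/

set_option autoImplicit false

namespace Pool.Agent.H705.RO

open MeasureTheory ProbabilityTheory Filter Topology Finset

/-- the final statement -/
def Main3 : Prop :=
    (∃ (Ω : Type) (_ : MeasurableSpace Ω) (P : Measure Ω) (X : ℕ → Ω → ℝ × ℝ), Model P X) ∧
    ∀ c : ℝ, 0 < c → ∃ C : ℝ, 0 < C ∧
      ∀ (Ω : Type) [MeasurableSpace Ω] (P : Measure Ω) (X : ℕ → Ω → ℝ × ℝ), Model P X →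
        ∀ (A : ℕ) (γ : ℕ → ℝ), Ord c A γ → ∀ᵐ ω ∂P, ∃ ψ : ℝ → ℝ,
          (∀ x : ℝ, 1 ≤ x → Tendsto (fun N : ℕ => x - ∑ n ∈ range N,
            2 * ((x : ℂ) ^ (1 / 2 + (γ n : ℂ) * Complex.I) / (1 / 2 + (γ n : ℂ) * Complex.I) *
              Complex.exp (2 * (Real.pi : ℂ) * Complex.I * (((X n ω).2 : ℝ) : ℂ))).re) atTop (𝓝 (ψ x))) ∧
          ∀ᶠ x : ℝ in atTop, ∀ h : ℝ, 1 ≤ h → h ≤ x →
            |ψ (x + h) - ψ x - h| ≤ C * Real.sqrt h * Real.log x ∧
            (C ^ 2 * Real.log x ^ 2 < h → ψ x < ψ (x + h))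

theorem zw_lip {c : ℝ} {A : ℕ} {γ : ℕ → ℝ} (hc : Ord c A γ) (h1 : ∀ n, am γ n ≤ 2 ∧ am γ n * γ n ≤ 2)
    (x : ℕ → ℝ × ℝ) (n : ℕ) (t t' : ℝ) : |zw γ x n t - zw γ x n t'| ≤ 2 * |t - t'| := by
  have ha : 0 ≤ am γ n := by unfold am; positivity
  have hg : 0 ≤ γ n := by linarith [(hc n).1]
  unfold zw wave
  rw [← mul_sub, abs_mul, abs_of_nonneg ha]
  have h2 : |Real.cos ((γ n + 0 * (x n).1) * t + 2 * Real.pi * (x n).2 + be γ n) -
      Real.cos ((γ n + 0 * (x n).1) * t' + 2 * Real.pi * (x n).2 + be γ n)| ≤ γ n * |t - t'| := by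
    have h3 := Real.abs_cos_sub_cos_le ((γ n + 0 * (x n).1) * t + 2 * Real.pi * (x n).2 + be γ n)
      ((γ n + 0 * (x n).1) * t' + 2 * Real.pi * (x n).2 + be γ n)
    refine h3.trans (le_of_eq ?_)
    rw [show (γ n + 0 * (x n).1) * t + 2 * Real.pi * (x n).2 + be γ n -
      ((γ n + 0 * (x n).1) * t' + 2 * Real.pi * (x n).2 + be γ n) = γ n * (t - t') by ring, abs_mul, abs_of_nonneg hg]
  calc am γ n * _ ≤ am γ n * (γ n * |t - t'|) := mul_le_mul_of_nonneg_left h2 ha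
    _ = (am γ n * γ n) * |t - t'| := by ring
    _ ≤ 2 * |t - t'| := mul_le_mul_of_nonneg_right (h1 n).2 (abs_nonneg _)

theorem zw_bd {γ : ℕ → ℝ} (h1 : ∀ n, am γ n ≤ 2 ∧ am γ n * γ n ≤ 2) (x : ℕ → ℝ × ℝ) (n : ℕ) (t : ℝ) :
    |zw γ x n t| ≤ 2 := by
  have ha : 0 ≤ am γ n := by unfold am; positivity
  unfold zw wave
  rw [abs_mul, abs_of_nonneg ha]
  exact (mul_le_of_le_one_right ha (Real.abs_cos_le_one _)).trans (h1 n).1

theorem main3_of (hMOD : P_MOD) (hIDN : P_IDN) (hGRD : P_GRD) (hTL0 : P_TL0) (hAMZ : P_AMZ) (hCON : P_CON) : Main3 := by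
  refine ⟨hMOD.1, ?_⟩
  intro c hc
  obtain ⟨C, hC, hG⟩ := hGRD c hc
  refine ⟨C + 1, by linarith, ?_⟩
  intro Ω _ P X hX A γ hγ
  obtain ⟨hA1, hA2⟩ := hAMZ c A γ hc hγ
  have hw : ∀ n : ℕ, |γ n| ≤ ((n : ℝ) + 2) ^ A ∧ (0 : ℝ) ≤ (fun _ : ℕ => (0 : ℝ)) n ∧ (fun _ : ℕ => (0 : ℝ)) n ≤ 1 := by
    intro n
    refine ⟨?_, le_rfl, zero_le_one⟩
    rw [abs_of_nonneg (by linarith [(hγ n).1])]
    exact (hγ n).2.2
  filter_upwards [hG Ω P X hX A γ hγ, hTL0 Ω P X hX (am γ) (be γ) γ (fun _ => 0) A hA1 hw] with ω h1 h2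
  obtain ⟨S, hS1, hS2, hS3⟩ := h2
  refine ⟨fun x => x - Real.sqrt x * S (Real.log x), ?_, ?_⟩
  · intro x hx
    have h3 := ((hS1 (Real.log x) (Real.log_nonneg hx)).const_mul (Real.sqrt x)).const_sub x
    refine h3.congr fun N => ?_
    congr 1
    unfold part
    rw [Finset.mul_sum]
    refine Finset.sum_congr rfl fun n _ => ?_
    have h4 := hIDN.1 x (γ n) (X n ω).2 hx (hγ n).1
    unfold wave am be
    rw [show (γ n + (0 : ℝ) * (X n ω).1) * Real.log x = γ n * Real.log x by ring]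
    rw [h4]
    rfl
  · have h5 := hCON _ S C hC (fun n t => zw_bd hA2 _ n t) (fun n t t' => zw_lip hγ hA2 _ n t t') hS3 h1
    filter_upwards [h5, eventually_gt_atTop (1 : ℝ)] with x h6 hx1 h hh hhx
    have h7 := h6 h hh hhx
    have hlog : 0 < Real.log x := Real.log_pos hx1
    have h8 : |(x + h - Real.sqrt (x + h) * S (Real.log (x + h))) - (x - Real.sqrt x * S (Real.log x)) - h| ≤
        (C + 1) * Real.sqrt h * Real.log x := by
      rw [show (x + h - Real.sqrt (x + h) * S (Real.log (x + h))) - (x - Real.sqrt x * S (Real.log x)) - h =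
        -(Real.sqrt (x + h) * S (Real.log (x + h)) - Real.sqrt x * S (Real.log x)) by ring, abs_neg]
      exact h7
    refine ⟨h8, fun h9 => ?_⟩
    have h10 : (C + 1) * Real.log x < Real.sqrt h := by
      rw [Real.lt_sqrt (by positivity), mul_pow]
      exact h9
    have h11 : 0 < Real.sqrt h := Real.sqrt_pos.2 (by linarith)
    have h12 : (C + 1) * Real.sqrt h * Real.log x < h := by
      calc (C + 1) * Real.sqrt h * Real.log x = ((C + 1) * Real.log x) * Real.sqrt h := by ring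
        _ < Real.sqrt h * Real.sqrt h := mul_lt_mul_of_pos_right h10 h11
        _ = h := Real.mul_self_sqrt (by linarith)
    have h13 := (abs_le.1 h8).1
    show x - Real.sqrt x * S (Real.log x) < x + h - Real.sqrt (x + h) * S (Real.log (x + h))
    linarith

end Pool.Agent.H705.RO
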