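import Pool.Agent.H705.RO.Stm4

/-! # Primes in arithmetic progressions with the phases of the zeros randomised: the theorem from its parts -/

set_option autoImplicit false

namespace Pool.Agent.H705.RO

open MeasureTheory ProbabilityTheory Filter Topology Finset

/-- the final statement -/
def Main4 : Prop :=
    (∃ (Ω : Type) (_ : MeasurableSpace Ω) (P : Measure Ω) (X : ℕ → Ω → ℝ × ℝ), Model P X) ∧
    ∀ c : ℝ, 0 < c → ∃ K : ℝ, 0 < K ∧
      ∀ (Ω : Type) [MeasurableSpace Ω] (P : Measure Ω) (X : ℕ → Ω → ℝ × ℝ), Model P X →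
        ∀ (χ : (q : ℕ) → ℕ → DirichletCharacter ℂ q) (γ : ℕ → ℕ → ℕ → ℝ) (f : ℕ → ℕ → ℕ → ℕ),
          OrdD c Nat.totient γ → InjD Nat.totient f →
          ∀ᵐ ω ∂P, ∀ᶠ x : ℝ in atTop, ∀ q a : ℕ, 1 ≤ q → (q : ℝ) ≤ x → a < q →
            ∃ ψ : ℝ,
              Tendsto (fun N : ℕ => (x - ∑ n ∈ range N, ∑ i ∈ range q.totient,
                2 * (star (χ q i (a : ZMod q)) * ((x : ℂ) ^ (1 / 2 + (γ q i n : ℂ) * Complex.I) /
                    (1 / 2 + (γ q i n : ℂ) * Complex.I)) *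
                  Complex.exp (2 * (Real.pi : ℂ) * Complex.I * (((X (f q i n) ω).2 : ℝ) : ℂ))).re) / q.totient)
                atTop (𝓝 ψ) ∧
              |ψ - x / q.totient| ≤ K * Real.sqrt (x / q.totient) * Real.log x ^ (3 / 2 : ℝ)

theorem main4_of (hMOD : P_MOD) (hALD : P_ALD) : Main4 := by
  refine ⟨hMOD.1, ?_⟩
  intro c hc
  obtain ⟨K, hK, hA⟩ := hALD c hc
  refine ⟨K, hK, ?_⟩
  intro Ω _ P X hX χ γ f hγ hf
  have h1 := hA Ω P X hX Nat.totient γ f (fun q a i => star (χ q i (a : ZMod q)))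
    (fun q hq => ⟨Nat.totient_pos.2 hq, Nat.totient_le q⟩) hγ hf (by
      intro q r i
      rw [norm_star]
      exact DirichletCharacter.norm_le_one _ _)
  filter_upwards [h1] with ω hω
  obtain ⟨x₀, hx₀⟩ := hω
  filter_upwards [eventually_ge_atTop x₀] with x hx q a hq hqx ha
  obtain ⟨S, hS1, hS2⟩ := hx₀ x hx q a hq hqx ha
  have ht : (0 : ℝ) < q.totient := by exact_mod_cast Nat.totient_pos.2 hq
  refine ⟨x / q.totient - S, ?_, ?_⟩
  · refine (hS1.const_sub (x / q.totient)).congr fun N => ?_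
    unfold bz tz
    rw [← sub_div]
    rfl
  · rw [show x / (q.totient : ℝ) - S - x / q.totient = -S by ring, abs_neg]
    exact hS2

end Pool.Agent.H705.RO
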