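import Mathlib

/-! # Sums over zeros with random ordinates and random phases: definitions

`M (x) / √x` and `L (x) / √x` are (formally) sums of waves `a n cos (γ n log x + phase)` over the zeros of zeta. In the random
model the ordinate `γ n` is independently and uniformly distributed on a short window `[g n, g n + w n]` and the phases are
independent and uniform. The `n`-th pair of random numbers `x n = (u, v)` is uniformly distributed on the unit square; the
ordinate is `g n + w n u` and the phase is `2 π v + β n`. -/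

set_option autoImplicit false

namespace Pool.Agent.H705.RO

open MeasureTheory ProbabilityTheory Filter Topology Finset

/-- the uniform law on the unit square -/
noncomputable def sq : Measure (ℝ × ℝ) :=
  ((volume : Measure ℝ).restrict (Set.Icc (0 : ℝ) 1)).prod ((volume : Measure ℝ).restrict (Set.Icc (0 : ℝ) 1))

/-- `X 0, X 1, …` are independent and uniformly distributed on the unit square -/
structure Model {Ω : Type} [MeasurableSpace Ω] (P : Measure Ω) (X : ℕ → Ω → ℝ × ℝ) : Prop where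
  prob : IsProbabilityMeasure P
  meas : ∀ n, Measurable (X n)
  indep : iIndepFun X P
  law : ∀ n, P.map (X n) = sq

/-- the windows `[g n, g n + w n]`: the lower ends grow at most like a power, the lengths decay at most like a power -/
def Win (A : ℕ) (g w : ℕ → ℝ) : Prop :=
  ∀ n : ℕ, |g n| ≤ ((n : ℝ) + 2) ^ A ∧ 1 / ((n : ℝ) + 2) ^ A ≤ w n ∧ w n ≤ 1

/-- nonnegative amplitudes with `∑_{n ≥ N} a n ^ 2 ≤ C N ^ (-1 + ε)` for all `ε > 0` -/
def Amp (a : ℕ → ℝ) : Prop :=
  (∀ n, 0 ≤ a n) ∧ ∀ ε : ℝ, 0 < ε → ∃ C : ℝ, ∀ N M : ℕ, 1 ≤ N → N ≤ M →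
    ∑ n ∈ Ico N M, a n ^ 2 ≤ C * (N : ℝ) ^ (-1 + ε)

/-- the `n`-th wave -/
noncomputable def wave (a β g w : ℕ → ℝ) (x : ℕ → ℝ × ℝ) (n : ℕ) (t : ℝ) : ℝ :=
  a n * Real.cos ((g n + w n * (x n).1) * t + 2 * Real.pi * (x n).2 + β n)

/-- the sum of the first `N` amplitudes -/
noncomputable def R (a : ℕ → ℝ) (N : ℕ) : ℝ := ∑ n ∈ range N, a n

/-- partial sums -/
noncomputable def part (W : ℕ → ℝ → ℝ) (N : ℕ) (t : ℝ) : ℝ := ∑ n ∈ range N, W n t

/-- `y` is within `δ / 2` of an integer -/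
def nr (δ y : ℝ) : Prop := |y - round y| ≤ δ / 2

/-- the argument of the `n`-th wave at time `t`, in turns, shifted by `s n` -/
noncomputable def arg (g w s : ℕ → ℝ) (x : ℕ → ℝ × ℝ) (n : ℕ) (t : ℝ) : ℝ :=
  (g n + w n * (x n).1) * t / (2 * Real.pi) + (x n).2 + s n

/-- the exponents `1 / 2, 2 / 3, 3 / 4, …` -/
noncomputable def pe (m : ℕ) : ℝ := 1 - 1 / ((m : ℝ) + 2)

/-- uniform bound for the tails of the series with sum `S` -/
def UT (W : ℕ → ℝ → ℝ) (S : ℝ → ℝ) : Prop :=
  ∀ m : ℕ, ∃ K : ℝ, ∀ J k : ℕ, ∀ t : ℝ, 0 ≤ t → t ≤ 2 ^ k → ∀ M : ℕ, 2 ^ J ≤ M →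
    |S t - part W M t| ≤ K * (2 : ℝ) ^ (-(pe m * J / 2)) * Real.sqrt ((J : ℝ) + k + 1)

end Pool.Agent.H705.RO
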