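import Pool.Agent.H705.RO.Asm
import Pool.Agent.H274.RO.T_ARC
import Pool.Agent.H264.RO.T_ARU
import Pool.Agent.H922.RO.T_PAIR
import Pool.Agent.H357.RO.T_MOD
import Pool.Agent.H772.RO.T_AL
import Pool.Agent.H618.RO.T_SEC
import Pool.Agent.H86.RO.T_STOP
import Pool.Agent.H25.RO.T_HOE
import Pool.Agent.H331.RO.T_LOP
import Pool.Agent.H686.RO.T_LOB
import Pool.Agent.H383.RO.T_EV
import Pool.Agent.H152.RO.T_BLK
import Pool.Agent.H230.RO.T_SUM
import Pool.Agent.H322.RO.T_CNV
import Pool.Agent.H339.RO.T_TAIL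
import Pool.Agent.H236.RO.T_UP
import Pool.Agent.H404.RO.T_LOW
import Pool.Agent.H550.RO.T_LOC
import Pool.Agent.H955.RO.T_FIN

/-! # Sums over zeros with random ordinates and random phases: end of the proof -/

set_option autoImplicit false

namespace Pool.Agent.H705.RO

theorem main : Main := by
  have arc := Pool.Agent.H274.RO.T_ARC
  have aru := Pool.Agent.H264.RO.T_ARU arc
  have pair := Pool.Agent.H922.ROP.T_PAIR arc aru
  have mod' := Pool.Agent.H357.RO.T_MOD
  have al := Pool.Agent.H772.RO.T_AL arc pair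
  have hoe := Pool.Agent.H25.RO.T_HOE
  have lop := Pool.Agent.H331.RO.T_LOP arc al Pool.Agent.H618.RO.T_SEC Pool.Agent.H86.RO.T_STOP hoe
  have lob := Pool.Agent.H686.RO.T_LOB lop
  have ev := Pool.Agent.H383.RO.T_EV hoe
  have tail := Pool.Agent.H339.RO.T_TAIL mod' ev Pool.Agent.H152.RO.T_BLK Pool.Agent.H230.RO.T_SUM
    Pool.Agent.H322.RO.T_CNV
  have loc := Pool.Agent.H550.RO.T_LOC arc lob
  exact main_of mod' tail Pool.Agent.H236.RO.T_UP Pool.Agent.H404.RO.T_LOW loc Pool.Agent.H955.RO.T_FIN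

end Pool.Agent.H705.RO
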