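import Pool.Agent.H705.RO.Asm2
import Pool.Agent.H705.RO.Fin
import Pool.Agent.H603.RO.T_JM
import Pool.Agent.H195.RO.T_VL1
import Pool.Agent.H296.RO.T_VL2
import Pool.Agent.H643.RO.T_LOV
import Pool.Agent.H897.RO.T_LBC
import Pool.Agent.H115.RO.T_UBC
import Pool.Agent.H971.RO.T_LCV
import Pool.Agent.H379.RO.T_DLO
import Pool.Agent.H97.RO.T_DUP

/-! # The frequency of the large values: end of the proof -/

set_option autoImplicit false

namespace Pool.Agent.H705.RO

theorem main2 : Main2 := by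
  have arc := Pool.Agent.H274.RO.T_ARC
  have aru := Pool.Agent.H264.RO.T_ARU arc
  have pair := Pool.Agent.H922.ROP.T_PAIR arc aru
  have mod' := Pool.Agent.H357.RO.T_MOD
  have al := Pool.Agent.H772.RO.T_AL arc pair
  have hoe := Pool.Agent.H25.RO.T_HOE
  have ev := Pool.Agent.H383.RO.T_EV hoe
  have tail := Pool.Agent.H339.RO.T_TAIL mod' ev Pool.Agent.H152.RO.T_BLK Pool.Agent.H230.RO.T_SUM
    Pool.Agent.H322.RO.T_CNV
  have jm := Pool.Agent.H603.RO.T_JM arc
  have vl2 := Pool.Agent.H296.RO.T_VL2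
  have lov := Pool.Agent.H643.RO.T_LOV jm Pool.Agent.H195.RO.T_VL1 vl2 al hoe
  have lbc := Pool.Agent.H897.RO.T_LBC lov
  have ubc := Pool.Agent.H115.RO.T_UBC jm vl2 hoe
  have lcv := Pool.Agent.H971.RO.T_LCV arc lbc
  exact main2_of tail Pool.Agent.H236.RO.T_UP lcv ubc Pool.Agent.H379.RO.T_DLO Pool.Agent.H97.RO.T_DUP

end Pool.Agent.H705.RO
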