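import Pool.Agent.H705.RO.Asm3
import Pool.Agent.H357.RO.T_MOD
import Pool.Agent.H25.RO.T_HOE
import Pool.Agent.H383.RO.T_EV
import Pool.Agent.H152.RO.T_BLK
import Pool.Agent.H230.RO.T_SUM
import Pool.Agent.H322.RO.T_CNV
import Pool.Agent.H909.RO.T_IDN
import Pool.Agent.H924.RO.T_VAR
import Pool.Agent.H233.RO.T_GRD
import Pool.Agent.H333.RO.T_TL0
import Pool.Agent.H874.RO.T_AMZ
import Pool.Agent.H356.RO.T_CON

/-! # Prime counting with the phases of the zeros randomised: end of the proof -/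

set_option autoImplicit false

namespace Pool.Agent.H705.RO

theorem main3 : Main3 := by
  have mod' := Pool.Agent.H357.RO.T_MOD
  have hoe := Pool.Agent.H25.RO.T_HOE
  have ev := Pool.Agent.H383.RO.T_EV hoe
  have tl0 := Pool.Agent.H333.RO.T_TL0 mod' ev Pool.Agent.H152.RO.T_BLK Pool.Agent.H230.RO.T_SUM
    Pool.Agent.H322.RO.T_CNV
  have idn := Pool.Agent.H909.RO.T_IDN
  have grd := Pool.Agent.H233.RO.T_GRD hoe idn Pool.Agent.H924.RO.T_VAR
  exact main3_of mod' idn grd tl0 Pool.Agent.H874.RO.T_AMZ Pool.Agent.H356.RO.T_CON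

end Pool.Agent.H705.RO
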