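import Pool.Agent.H705.RO.Stm4

set_option autoImplicit false

open Finset Filter Topology
open Pool.Agent.H705.RO

namespace Pool.Agent.H705.RO

theorem T_FID : P_FID := by
  set r : ℝ := Real.sqrt (1 / 2) with hr
  have hr0 : 0 < r := Real.sqrt_pos.2 (by norm_num)
  have hr2 : r ^ 2 = 1 / 2 := Real.sq_sqrt (by norm_num)
  have hr1 : r < 1 := by nlinarith
  set w : ℕ → ℝ := fun i => (1 + (i:ℝ)) ^ 2 * r ^ i with hw
  have hw0 : ∀ i, 0 ≤ w i := fun i => by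
    simp only [hw]
    positivity
  have hsum : Summable w := by
    have hn : ‖r‖ < 1 := by rw [Real.norm_of_nonneg hr0.le]; exact hr1
    have h1 := summable_pow_mul_geometric_of_norm_lt_one 1 hn
    have h2 := summable_geometric_of_lt_one hr0.le hr1
    have h3 := summable_pow_mul_geometric_of_norm_lt_one 2 hn
    have h4 := (h2.add (h1.mul_left 2)).add h3
    refine h4.congr fun i => ?_
    simp only [hw]
    ring
  have htail : Tendsto (fun l : ℕ => ∑' i, w (i + l)) atTop (𝓝 0) := tendsto_sum_nat_add w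
  have hT0 : 0 ≤ ∑' i, w i := tsum_nonneg hw0
  refine ⟨8 * (∑' i, w i) + 1, by positivity, ?_⟩
  intro s E j hE hblk
  set C : ℝ := 8 * E * ((j : ℝ) + 1) ^ (3 / 2 : ℝ) with hC
  have hj : (0 : ℝ) < (j : ℝ) + 1 := by positivity
  have hC0 : 0 ≤ C := by positivity
  have hj3 : (((j : ℝ) + 1) ^ (3 / 2 : ℝ)) ^ 2 = ((j : ℝ) + 1) ^ 3 := by
    rw [← Real.rpow_natCast, ← Real.rpow_mul hj.le, ← Real.rpow_natCast]
    norm_num
  have hone : ∀ l : ℕ, Real.sqrt (E ^ 2 * ((j : ℝ) + l + 4) ^ 3 / 2 ^ l) ≤ C * w l := by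
    intro l
    apply Real.sqrt_le_iff.2
    refine ⟨mul_nonneg hC0 (hw0 l), ?_⟩
    have e1 : (C * w l) ^ 2 = E ^ 2 * (64 * ((j : ℝ) + 1) ^ 3 * (1 + (l : ℝ)) ^ 4) * (r ^ 2) ^ l := by
      simp only [hw, hC]
      rw [mul_pow, mul_pow, mul_pow, mul_pow, hj3]
      ring
    rw [e1, hr2, one_div, inv_pow, div_eq_mul_inv]
    have hl : (0 : ℝ) ≤ l := by positivity
    have hj0 : (0 : ℝ) ≤ j := by positivity
    have e2 : (j : ℝ) + l + 4 ≤ 4 * (((j : ℝ) + 1) * (1 + l)) := by nlinarith [mul_nonneg hj0 hl]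
    have e3 : ((j : ℝ) + l + 4) ^ 3 ≤ (4 * (((j : ℝ) + 1) * (1 + l))) ^ 3 :=
      pow_le_pow_left₀ (by positivity) e2 3
    have e4 : (4 * (((j : ℝ) + 1) * (1 + (l : ℝ)))) ^ 3 ≤ 64 * ((j : ℝ) + 1) ^ 3 * (1 + (l : ℝ)) ^ 4 := by
      have e5 : (1 + (l : ℝ)) ^ 3 ≤ (1 + (l : ℝ)) ^ 4 := pow_le_pow_right₀ (by linarith) (by norm_num)
      calc (4 * (((j : ℝ) + 1) * (1 + (l : ℝ)))) ^ 3 = 64 * ((j : ℝ) + 1) ^ 3 * (1 + (l : ℝ)) ^ 3 := by ring
        _ ≤ _ := mul_le_mul_of_nonneg_left e5 (by positivity)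
    have e6 : E ^ 2 * ((j : ℝ) + l + 4) ^ 3 ≤ E ^ 2 * (64 * ((j : ℝ) + 1) ^ 3 * (1 + (l : ℝ)) ^ 4) :=
      mul_le_mul_of_nonneg_left (e3.trans e4) (by positivity)
    exact mul_le_mul_of_nonneg_right e6 (by positivity)
  have hpm : ∀ a b : ℕ, a ≤ b → 2 ^ a - 1 ≤ 2 ^ b - 1 := fun a b hab =>
    Nat.sub_le_sub_right (Nat.pow_le_pow_right (by norm_num) hab) 1
  have key : ∀ l d M : ℕ, 2 ^ l - 1 ≤ M → M ≤ 2 ^ (l + d) - 1 →
      |∑ n ∈ Ico (2 ^ l - 1) M, s n| ≤ C * ∑ i ∈ range d, w (i + l) := by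
    intro l d
    induction d with
    | zero =>
      intro M h1 h2
      have h3 : M = 2 ^ l - 1 := le_antisymm h2 h1
      rw [h3]
      simp
    | succ d ih =>
      intro M h1 h2
      rw [sum_range_succ, mul_add]
      rcases le_total M (2 ^ (l + d) - 1) with h3 | h3
      · have h4 := ih M h1 h3
        have h5 : 0 ≤ C * w (d + l) := mul_nonneg hC0 (hw0 _)
        linarith
      · have h4 : 2 ^ l - 1 ≤ 2 ^ (l + d) - 1 := hpm _ _ (by omega)
        have h5 := ih (2 ^ (l + d) - 1) h4 le_rfl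
        have h6 := hblk (l + d) M h3 h2
        have h7 : ∑ n ∈ Ico (2 ^ l - 1) M, s n =
            ∑ n ∈ Ico (2 ^ l - 1) (2 ^ (l + d) - 1), s n + ∑ n ∈ Ico (2 ^ (l + d) - 1) M, s n :=
          (sum_Ico_consecutive s h4 h3).symm
        have h8 := hone (l + d)
        rw [h7]
        have h9 := abs_add_le (∑ n ∈ Ico (2 ^ l - 1) (2 ^ (l + d) - 1), s n)
          (∑ n ∈ Ico (2 ^ (l + d) - 1) M, s n)
        rw [add_comm l d] at h6 h8
        rw [add_comm l d] at h9 h5 ⊢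
        linarith
  have hsh : ∀ l : ℕ, Summable fun i => w (i + l) := fun l => (summable_nat_add_iff l).2 hsum
  have key2 : ∀ l M : ℕ, 2 ^ l - 1 ≤ M → |∑ n ∈ Ico (2 ^ l - 1) M, s n| ≤ C * ∑' i, w (i + l) := by
    intro l M hM
    have h1 : M ≤ 2 ^ (l + M) - 1 := by
      have h2 : M < 2 ^ M := Nat.lt_two_pow_self
      have h3 : 2 ^ M ≤ 2 ^ (l + M) := Nat.pow_le_pow_right (by norm_num) (by omega)
      omega
    refine (key l M M hM h1).trans (mul_le_mul_of_nonneg_left ?_ hC0)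
    exact (hsh l).sum_le_tsum _ fun i _ => hw0 _
  have hcau : CauchySeq fun N => ∑ n ∈ range N, s n := by
    rw [Metric.cauchySeq_iff']
    intro ε hε
    have h1 : Tendsto (fun l : ℕ => C * ∑' i, w (i + l)) atTop (𝓝 (C * 0)) := htail.const_mul C
    rw [mul_zero] at h1
    obtain ⟨l, hl⟩ := (h1.eventually_lt_const hε).exists
    refine ⟨2 ^ l - 1, fun n hn => ?_⟩
    rw [Real.dist_eq, ← Finset.sum_Ico_eq_sub _ hn]
    exact (key2 l n hn).trans_lt hl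
  obtain ⟨S, hS⟩ := cauchySeq_tendsto_of_complete hcau
  refine ⟨S, hS, ?_⟩
  have h1 : ∀ N, |∑ n ∈ range N, s n| ≤ C * ∑' i, w i := by
    intro N
    have h2 := key2 0 N (by simp)
    simpa using h2
  have h3 : |S| ≤ C * ∑' i, w i := le_of_tendsto hS.abs (Eventually.of_forall h1)
  refine h3.trans ?_
  have h4 : 0 ≤ E * ((j : ℝ) + 1) ^ (3 / 2 : ℝ) := by positivity
  calc C * ∑' i, w i = (8 * ∑' i, w i) * (E * ((j : ℝ) + 1) ^ (3 / 2 : ℝ)) := by rw [hC]; ring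
    _ ≤ (8 * (∑' i, w i) + 1) * (E * ((j : ℝ) + 1) ^ (3 / 2 : ℝ)) :=
        mul_le_mul_of_nonneg_right (by linarith) h4
    _ = (8 * (∑' i, w i) + 1) * E * ((j : ℝ) + 1) ^ (3 / 2 : ℝ) := by ring

end Pool.Agent.H705.RO
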