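import Pool.Agent.H705.RO.Asm4
import Pool.Agent.H705.RO.T_FID
import Pool.Agent.H357.RO.T_MOD
import Pool.Agent.H25.RO.T_HOE
import Pool.Agent.H767.RO.T_HOD
import Pool.Agent.H874.RO.T_SQD
import Pool.Agent.H389.RO.T_EVD
import Pool.Agent.H93.RO.T_BLD
import Pool.Agent.H795.RO.T_ALD

/-! # Primes in arithmetic progressions with the phases of the zeros randomised: end of the proof -/

set_option autoImplicit false

namespace Pool.Agent.H705.RO

theorem main4 : Main4 := by
  have hod := Pool.Agent.H767.RO.T_HOD Pool.Agent.H25.RO.T_HOE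
  have evd := Pool.Agent.H389.RO.T_EVD hod Pool.Agent.H874.RO.SQD.T_SQD
  exact main4_of Pool.Agent.H357.RO.T_MOD (Pool.Agent.H795.RO.T_ALD evd Pool.Agent.H93.RO.T_BLD T_FID)

end Pool.Agent.H705.RO
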