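import Pool.Agent.H705.RO.Defs

/-! # Sums over zeros with random ordinates and random phases: the parts of the proof

Every `P_X` is one part; its docstring is a complete paper proof. -/

set_option autoImplicit false

namespace Pool.Agent.H705.RO

open MeasureTheory ProbabilityTheory Filter Topology Finset

/-- **ARC** (elementary). (1) If `y` is within `δ / 2` of an integer, `0 ≤ δ ≤ 1`, then `cos (2 π y) ≥ cos (π δ)`:
`cos (2 π y) = cos (2 π (y - round y)) = cos |2 π (y - round y)|` by periodicity (`Real.cos_sub_int_mul_two_pi` or similar) and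
`|2 π (y - round y)| ≤ π δ ≤ π`, `cos` is antitone on `[0, π]`.
(2) For real `z` and `0 ≤ δ ≤ 1` the set of `v ∈ [0, 1]` such that `z + v` is within `δ / 2` of an integer has measure `δ`.
Proof: by translation it is the measure of `[z, z + 1] ∩ {nr δ}`; the indicator function of `{y | nr δ y}` is `1`-periodic
(`round (y + 1) = round y + 1`), so that its integral over `[z, z + 1]` is the integral over `[-1/2, 1/2]`
(`Function.Periodic.intervalIntegral_add_eq`), and for `|y| < 1 / 2` one has `round y = 0`, so that on this interval, up to the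
end points, the set is `[-δ/2, δ/2]`. (Or directly with intervals: `z + v ∈ [k - δ/2, k + δ/2]` for the at most two relevant
integers `k`.) (3) measurability of the set `{y | nr δ y}` (`measurable` of `round` on `ℝ`: it is a floor). -/
def P_ARC : Prop :=
  (∀ δ y : ℝ, 0 ≤ δ → δ ≤ 1 → nr δ y → Real.cos (Real.pi * δ) ≤ Real.cos (2 * Real.pi * y)) ∧
  (∀ z δ : ℝ, 0 ≤ δ → δ ≤ 1 →
    (volume : Measure ℝ) {v : ℝ | v ∈ Set.Icc (0 : ℝ) 1 ∧ nr δ (z + v)} = ENNReal.ofReal δ) ∧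
  (∀ δ : ℝ, MeasurableSet {y : ℝ | nr δ y})

/-- **ARU.** For `ℓ ≠ 0` and `0 ≤ δ ≤ 1` the measure of the set of the `u ∈ [0, 1]` for which `c + ℓ u` is within `δ / 2` of an
integer is at most `δ (1 + 1 / |ℓ|)`.
Proof from (2) of ARC. By the substitution `y = c + ℓ u` (`Measure` of the preimage under an affine map: the Lebesgue measure is
multiplied by `1 / |ℓ|`; `Real.volume_preimage_mul_left`, `measure_preimage_add`, or `Measure.addHaar_preimage_smul`) the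
measure is `1 / |ℓ|` times the measure of `{y ∈ I | nr δ y}`, `I` the closed interval between `c` and `c + ℓ`, of length `|ℓ|`.
Let `z` be its left end and `m = ⌈|ℓ|⌉ ≤ |ℓ| + 1`. `I` is contained in the union of the intervals `[z + i, z + i + 1]`,
`0 ≤ i < m`, and on each of them the set has measure `δ` by ARC (translate by `z + i`). So the measure is at most
`m δ / |ℓ| ≤ δ (1 + 1 / |ℓ|)`. -/
def P_ARU : Prop :=
  ∀ c l δ : ℝ, l ≠ 0 → 0 ≤ δ → δ ≤ 1 →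
    (volume : Measure ℝ) {u : ℝ | u ∈ Set.Icc (0 : ℝ) 1 ∧ nr δ (c + l * u)} ≤ ENNReal.ofReal (δ * (1 + 1 / |l|))

/-- **PAIR.** For a point `p = (u, v)` uniform on the unit square: (1) `c + l u + v` is within `δ / 2` of an integer with
probability `δ`. (2) If `l ≠ l'`, both `c + l u + v` and `c' + l' u + v` are within `δ / 2` of an integer with probability at
most `δ ^ 2 (1 + 1 / |l - l'|)`.
Proof. (1) Tonelli (`Measure.prod_apply`): for every `u` the section has measure `δ` by ARC with `z = c + l u`; `sq` is a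
product of two probability measures. (2) Tonelli, `u` outside: for fixed `u` put `α = c + l u`, `β = c' + l' u`. The function
`y ↦ 1[nr δ y] 1[nr δ (y + (α - β))]` is `1`-periodic, hence `∫_0^1 1[nr δ (β + v)] 1[nr δ (α + v)] dv` =
`∫_β^{β+1} 1[nr δ y] 1[nr δ (y + α - β)] dy = ∫_0^1 1[nr δ y] 1[nr δ (y + (c - c') + (l - l') u)] dy`. Exchange the two
integrations: the total is `∫_0^1 1[nr δ y] μ{u ∈ [0,1] | nr δ (y + (c - c') + (l - l') u)} dy`, and the inner measure is at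
most `δ (1 + 1 / |l - l'|)` by ARU; finally `∫_0^1 1[nr δ y] dy = δ` by ARC (with `z = 0`). (It may be convenient to work with
`lintegral`s of indicator functions.) -/
def P_PAIR : Prop :=
  (∀ c l δ : ℝ, 0 ≤ δ → δ ≤ 1 → sq {p : ℝ × ℝ | nr δ (c + l * p.1 + p.2)} = ENNReal.ofReal δ) ∧
  (∀ c l c' l' δ : ℝ, l ≠ l' → 0 ≤ δ → δ ≤ 1 →
    sq {p : ℝ × ℝ | nr δ (c + l * p.1 + p.2) ∧ nr δ (c' + l' * p.1 + p.2)} ≤
      ENNReal.ofReal (δ ^ 2 * (1 + 1 / |l - l'|)))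

/-- **MOD.** The model exists, `sq` is a probability measure, and in a model almost surely all the first coordinates lie in
`[0, 1]`.
Proof. `volume.restrict (Icc 0 1)` is a probability measure. Take the infinite product of the measures `sq`
(`MeasureTheory.Measure.infinitePi`, coordinates are independent: `iIndepFun_infinitePi` or similar) and the coordinate maps
(`measurePreserving_eval_infinitePi` gives the law). Third part: `P {ω | (X n ω).1 ∉ [0,1]} = sq {p | p.1 ∉ [0,1]} = 0` for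
each `n`, and `ae_all_iff`. -/
def P_MOD : Prop :=
  (∃ (Ω : Type) (_ : MeasurableSpace Ω) (P : Measure Ω) (X : ℕ → Ω → ℝ × ℝ), Model P X) ∧
  IsProbabilityMeasure sq ∧
  ∀ (Ω : Type) [MeasurableSpace Ω] (P : Measure Ω) (X : ℕ → Ω → ℝ × ℝ), Model P X →
    ∀ᵐ ω ∂P, ∀ n, (X n ω).1 ∈ Set.Icc (0 : ℝ) 1

/-- **AL.** The arguments of the first `N` waves at the times `t ≠ t'`, `|t - t'| ≥ Δ > 0`: the probability that they are all
within `δ / 2` of an integer at time `t` is `δ ^ N`, and the probability of this for both times is at most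
`δ ^ (2 N) ∏_{n < N} (1 + 2 π / (w n Δ))`.
Proof. `arg g w s x n t = c + l (x n).1 + (x n).2` with `c = g n t / (2 π) + s n`, `l = w n t / (2 π)`. The events for
different `n` are independent (`Model.indep`, `iIndepFun.measure_inter_preimage_eq_mul` over `range N`), each is the preimage of
a measurable set of `ℝ × ℝ` under `X n` and `P.map (X n) = sq`; use PAIR. For (2): `|l - l'| = w n |t - t'| / (2 π) ≥
w n Δ / (2 π) > 0`, so the `n`-th factor is at most `δ ^ 2 (1 + 2 π / (w n Δ))`; multiply (`ENNReal.ofReal_prod_of_nonneg`).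
Measurability of `{p | nr δ (c + l p.1 + p.2)}` is by ARC (3). -/
def P_AL : Prop :=
  ∀ (Ω : Type) [MeasurableSpace Ω] (P : Measure Ω) (X : ℕ → Ω → ℝ × ℝ), Model P X →
    ∀ (g w s : ℕ → ℝ) (δ : ℝ), (∀ n, 0 < w n) → 0 ≤ δ → δ ≤ 1 → ∀ N : ℕ,
      (∀ t : ℝ, P {ω | ∀ n < N, nr δ (arg g w s (fun n => X n ω) n t)} = ENNReal.ofReal (δ ^ N)) ∧
      ∀ Δ t t' : ℝ, 0 < Δ → Δ ≤ |t - t'| →
        P {ω | (∀ n < N, nr δ (arg g w s (fun n => X n ω) n t)) ∧ ∀ n < N, nr δ (arg g w s (fun n => X n ω) n t')} ≤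
          ENNReal.ofReal (δ ^ (2 * N) * ∏ n ∈ range N, (1 + 2 * Real.pi / (w n * Δ)))

/-- **SEC** (second moment method). Events `A k`, `k < K`, of probability `q > 0`, with
`P (A j ∩ A k) ≤ q ^ 2 (1 + η)` for `j ≠ k`: none of them occurs with probability at most `1 / (K q) + η`.
Proof. `Z = ∑_{k<K} 1_{A k}`, `E Z = K q =: m`, `E Z ^ 2 = ∑_{j,k} P (A j ∩ A k) ≤ m + m ^ 2 (1 + η)` (the diagonal gives `m`),
so `E (Z - m) ^ 2 ≤ m + η m ^ 2`, and on the event in question `(Z - m) ^ 2 = m ^ 2`; by Markov's inequality its probability is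
at most `(m + η m ^ 2) / m ^ 2 = 1 / m + η`. (`Z` is bounded, everything is integrable.) -/
def P_SEC : Prop :=
  ∀ (Ω : Type) [MeasurableSpace Ω] (P : Measure Ω) [IsProbabilityMeasure P] (K : ℕ) (A : ℕ → Set Ω) (q η : ℝ),
    1 ≤ K → 0 < q → 0 ≤ η → (∀ k < K, MeasurableSet (A k)) → (∀ k < K, P (A k) = ENNReal.ofReal q) →
    (∀ j < K, ∀ k < K, j ≠ k → P (A j ∩ A k) ≤ ENNReal.ofReal (q ^ 2 * (1 + η))) →
    P {ω | ∀ k < K, ω ∉ A k} ≤ ENNReal.ofReal (1 / (K * q) + η)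

/-- **STOP.** `Y` and `T` independent, `a k`, `b k` measurable sets, `P (T ∈ b k) ≤ τ` for `k < K`. Then the probability that
`T ∈ b k` for every `k < K` with `Y ∈ a k` is at most `P (Y ∉ a k for all k < K) + τ`.
Proof. If some `k < K` has `Y ∈ a k`, let `k` be the first one; `F k = {Y ∈ a k, Y ∉ a j for j < k}` is the preimage under `Y`
of a measurable set, hence independent of `{T ∈ b k}`. The event in question is contained in
`{∀ k < K, Y ∉ a k} ∪ ⋃_{k<K} (F k ∩ {T ∈ b k})`, and `P (F k ∩ {T ∈ b k}) = P (F k) P (T ∈ b k) ≤ τ P (F k)`; the `F k` are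
disjoint, so `∑ P (F k) ≤ 1`. -/
def P_STOP : Prop :=
  ∀ (Ω E F : Type) [MeasurableSpace Ω] [MeasurableSpace E] [MeasurableSpace F] (P : Measure Ω) [IsProbabilityMeasure P]
    (Y : Ω → E) (T : Ω → F), Measurable Y → Measurable T → IndepFun Y T P →
    ∀ (K : ℕ) (a : ℕ → Set E) (b : ℕ → Set F) (τ : ENNReal), (∀ k, MeasurableSet (a k)) → (∀ k, MeasurableSet (b k)) →
      (∀ k < K, P {ω | T ω ∈ b k} ≤ τ) →
      P {ω | ∀ k < K, Y ω ∈ a k → T ω ∈ b k} ≤ P {ω | ∀ k < K, Y ω ∉ a k} + τ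

/-- **HOE** (Hoeffding). For `M ≤ M'`, a time `t`, `lam > 0`, `v > 0` and `∑_{M ≤ n < M'} a n ^ 2 ≤ v`: the sum of the waves with
`M ≤ n < M'` at time `t` is at least `lam` in absolute value with probability at most `2 exp (- lam ^ 2 / (2 v))`.
Proof. For fixed `t` the waves are independent (functions of the independent `X n`), they lie in `[- a n, a n]`, and each has
mean `0`: for fixed first coordinate `∫_0^1 cos (θ + 2 π v) dv = 0` (law `sq`, Fubini). By Hoeffding's lemma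
(`hasSubgaussianMGF_of_mem_Icc` or `hasSubgaussianMGF_of_mem_Icc_of_integral_eq_zero`) the `n`-th wave is sub-Gaussian with
parameter `a n ^ 2`, the sum (`HasSubgaussianMGF.sum_of_iIndepFun`) with parameter `∑ a n ^ 2 ≤ v`, and
`HasSubgaussianMGF.measure_ge_le` (for the sum and for minus the sum) gives the two tails
(`exp (- lam ^ 2 / (2 ∑ a ^ 2)) ≤ exp (- lam ^ 2 / (2 v))`; if `∑ a n ^ 2 = 0` the sum is `0` and the event is empty; or use the
monotonicity of `HasSubgaussianMGF` in the parameter). -/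
def P_HOE : Prop :=
  ∀ (Ω : Type) [MeasurableSpace Ω] (P : Measure Ω) (X : ℕ → Ω → ℝ × ℝ), Model P X →
    ∀ (a β g w : ℕ → ℝ), (∀ n, 0 ≤ a n) → ∀ (t : ℝ) (M M' : ℕ) (lam v : ℝ), 0 < lam → 0 < v →
      ∑ n ∈ Ico M M', a n ^ 2 ≤ v →
      P {ω | lam ≤ |∑ n ∈ Ico M M', wave a β g w (fun n => X n ω) n t|} ≤
        ENNReal.ofReal (2 * Real.exp (-(lam ^ 2 / (2 * v))))

/-- **LOP.** For `N ≤ M`, `K ≥ 1`, `0 < δ ≤ 1`, the times `Δ (k + 1)`, `k < K`: the probability that for every `k < K` for which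
the first `N` arguments are within `δ / 2` of integers at the time `Δ (k + 1)`, the sum of the waves `N ≤ n < M` at this time
is at least `1` in absolute value, is at most `1 / (K δ ^ N) + (∏_{n<N} (1 + 2 π / (w n Δ)) - 1) + 2 exp (- 1 / (2 v))`.
Proof. `Y = (X n)_{n<N}` and `T = (X n)_{N≤n<M}` are independent (`iIndepFun.indepFun_finset` with the index sets `range N`,
`Ico N M`). STOP with `a k` = the first `N` arguments at time `Δ (k+1)` are near integers, `b k` = the sum of the waves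
`N ≤ n < M` is at least `1` in absolute value, `τ = 2 exp (-1/(2v))` by HOE with `lam = 1`. `P (∀ k < K, Y ∉ a k)` by SEC with
`q = δ ^ N`, `η = ∏ - 1 ≥ 0`, by AL (two different times differ by at least `Δ`). -/
def P_LOP : Prop :=
  ∀ (Ω : Type) [MeasurableSpace Ω] (P : Measure Ω) (X : ℕ → Ω → ℝ × ℝ), Model P X →
    ∀ (a β g w s : ℕ → ℝ), (∀ n, 0 ≤ a n) → (∀ n, 0 < w n) → ∀ (δ Δ v : ℝ), 0 < δ → δ ≤ 1 → 0 < Δ → 0 < v →
      ∀ N M K : ℕ, N ≤ M → 1 ≤ K → ∑ n ∈ Ico N M, a n ^ 2 ≤ v →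
      P {ω | ∀ k < K, (∀ n < N, nr δ (arg g w s (fun n => X n ω) n (Δ * ((k : ℝ) + 1)))) →
          1 ≤ |∑ n ∈ Ico N M, wave a β g w (fun n => X n ω) n (Δ * ((k : ℝ) + 1))|} ≤
        ENNReal.ofReal (1 / (K * δ ^ N) + (∏ n ∈ range N, (1 + 2 * Real.pi / (w n * Δ)) - 1) +
          2 * Real.exp (-(1 / (2 * v))))

/-- **LOB.** Let `0 < δ < 1`. Almost surely, for all large `N` there is a time `t` with `N ≤ t ≤ exp (N (log (1/δ) + 1))` at
which the first `N` arguments are within `δ / 2` of integers and the sum of the waves `N ≤ n < N ^ 4` is at most `1` in absolute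
value.
Proof. Let `Δ = (N + 2) ^ (A + 5)`, `K = ⌈N ^ 3 δ ^ (-N)⌉`, `M = N ^ 4` (`N ≥ 1`). By `Win A g w`, `w n ≥ (n+2)^(-A) > 0`. By LOP
the event that there is no such `t` among the times `Δ (k + 1)`, `k < K`, has probability at most the sum of three terms.
First: `1 / (K δ ^ N) ≤ 1 / N ^ 3`. Second: `∏_{n<N} (1 + 2 π / (w n Δ)) - 1 ≤ exp (∑_{n<N} 2 π (n+2)^A / Δ) - 1 ≤
exp (2 π N (N+1)^A / (N+2)^(A+5)) - 1 ≤ exp (7 / (N+2)^4) - 1 ≤ 14 / (N+2)^4` (`exp y ≤ 1 + 2 y` for `0 ≤ y ≤ 1`). Third: with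
`ε = 1/2` in `Amp` one can take `v = C N ^ (-1/2)`, `C ≥ 1`, so it is `2 exp (- N ^ (1/2) / (2 C))`. All three are summable in
`N` (for the third: `exp (-y) ≤ 24 / y ^ 4`), so by Borel–Cantelli (`measure_limsup_atTop_eq_zero` or
`ae_eventually_notMem`) almost surely for all large `N` some `k < K` has all the properties. The time `t = Δ (k+1)` satisfies
`N ≤ Δ ≤ t ≤ Δ K ≤ (N+2)^(A+5) (N ^ 3 δ ^ (-N) + 1) ≤ exp (N (log (1/δ) + 1))` for large `N`
(`δ ^ (-N) = exp (N log (1/δ)) ≥ 1`, `(N+2)^(A+5) (N^3 + 1) ≤ exp N`). -/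
def P_LOB : Prop :=
  ∀ (Ω : Type) [MeasurableSpace Ω] (P : Measure Ω) (X : ℕ → Ω → ℝ × ℝ), Model P X →
    ∀ (a β g w s : ℕ → ℝ) (A : ℕ), Amp a → Win A g w → ∀ δ : ℝ, 0 < δ → δ < 1 →
      ∀ᵐ ω ∂P, ∃ N₀ : ℕ, ∀ N : ℕ, N₀ ≤ N → ∃ t : ℝ, (N : ℝ) ≤ t ∧ t ≤ Real.exp (N * (Real.log (1 / δ) + 1)) ∧
        (∀ n < N, nr δ (arg g w s (fun n => X n ω) n t)) ∧
        |∑ n ∈ Ico N (N ^ 4), wave a β g w (fun n => X n ω) n t| ≤ 1

/-- **EV.** Let `0 < p ≤ 1`, `C > 0` and `∑_{2^j ≤ n < M} a n ^ 2 ≤ C 2 ^ (- p j)` for all `j` and `M ≥ 2 ^ j`. Almost surely there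
is `K₀` such that for all `j + k ≥ K₀`, at all points `t = i / 2 ^ ((A+4) j)` of the grid with `i ≤ 2 ^ (k + (A+4) j)` and for all
`2 ^ j ≤ M ≤ 2 ^ (j+1)` the sum of the waves `2 ^ j ≤ n < M` is at most
`√(2 C (A + 8)) 2 ^ (- p j / 2) √(j + k)` in absolute value.
Proof. For fixed `(j, k)` with `j + k ≥ 1` let `lam` be this bound; `lam ^ 2 = 2 C (A+8) 2 ^ (-p j) (j+k)`. For one `i` and one `M`
the sum exceeds `lam` with probability at most `2 exp (- lam ^ 2 / (2 C 2 ^ (-p j))) = 2 exp (-(A+8)(j+k)) ≤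
2 · 2 ^ (-(A+8)(j+k))` by HOE with `v = C 2 ^ (-p j)`. There are at most `2 ^ (k + (A+4) j) + 1 ≤ 2 ^ (k + (A+4) j + 1)` values of
`i` and at most `2 ^ j + 1 ≤ 2 ^ (j+1)` values of `M`. So the probability that the statement fails for `(j, k)` is at most
`2 ^ (k + (A+4) j + 1 + j + 1 + 1 - (A+8)(j+k)) ≤ 2 ^ (3 - 3 j - 7 k)`, which is summable over the pairs `(j, k)`. By
Borel–Cantelli (over the countable set `ℕ × ℕ`; e.g. `ae_finite_setOf_mem`) almost surely only finitely many pairs fail; the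
pair `(0,0)` may be treated as failing. -/
def P_EV : Prop :=
  ∀ (Ω : Type) [MeasurableSpace Ω] (P : Measure Ω) (X : ℕ → Ω → ℝ × ℝ), Model P X →
    ∀ (a β g w : ℕ → ℝ) (A : ℕ) (p C : ℝ), (∀ n, 0 ≤ a n) → 0 < p → p ≤ 1 → 0 < C →
      (∀ j M : ℕ, 2 ^ j ≤ M → ∑ n ∈ Ico (2 ^ j) M, a n ^ 2 ≤ C * (2 : ℝ) ^ (-(p * j))) →
      ∀ᵐ ω ∂P, ∃ K₀ : ℕ, ∀ j k : ℕ, K₀ ≤ j + k → ∀ i M : ℕ, i ≤ 2 ^ (k + (A + 4) * j) → 2 ^ j ≤ M → M ≤ 2 ^ (j + 1) →
        |∑ n ∈ Ico (2 ^ j) M, wave a β g w (fun n => X n ω) n ((i : ℝ) / 2 ^ ((A + 4) * j))| ≤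
          Real.sqrt (2 * C * (A + 8)) * (2 : ℝ) ^ (-(p * j / 2)) * Real.sqrt ((j : ℝ) + k)

/-- **BLK** (deterministic). Passage from the grid to all times. Functions `W n` with `|W n t| ≤ a n`,
`|W n t - W n t'| ≤ a n · 2 (n+2)^A |t - t'|` and `a n ^ 2 ≤ C` for `n ≥ 1`. If the bound of EV holds at the grid points for all
`j + k ≥ K₀` (with some constant `D ≥ 0` in place of `√(2 C (A+8))`), then there is `K ≥ 0` such that for ALL `j`, `k`, all `t ∈ [0, 2^k]`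
and all `2 ^ j ≤ M ≤ 2 ^ (j+1)` the sum of the `W n t`, `2 ^ j ≤ n < M`, is at most `K 2 ^ (- p j / 2) √(j + k + 1)` in absolute
value.
Proof. `j + k ≥ K₀`: let `i = ⌊t 2 ^ ((A+4) j)⌋ ≤ 2 ^ (k + (A+4) j)` and `t' = i / 2 ^ ((A+4) j)`, `0 ≤ t - t' ≤ 2 ^ (-(A+4) j)`. The
sums at `t` and `t'` differ by at most `2 ^ j · √C · 2 (2 ^ (j+2)) ^ A · 2 ^ (-(A+4) j) = √C 2 ^ (1 + 2 A) 2 ^ (-3 j) ≤
√C 2 ^ (1 + 2 A) 2 ^ (- p j / 2) √(j+k+1)` (`n + 2 ≤ 2 ^ (j+2)` for `n < 2 ^ (j+1)`), and the sum at `t'` is at most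
`D 2 ^ (- p j / 2) √(j + k)`. `j + k < K₀`: the sum is at most `2 ^ j √C ≤ 2 ^ K₀ √C ≤ 2 ^ (2 K₀) √C 2 ^ (- p j / 2) √(j+k+1)`. So
`K = D + √C (2 ^ (1 + 2 A) + 2 ^ (2 K₀))` will do. -/
def P_BLK : Prop :=
  ∀ (W : ℕ → ℝ → ℝ) (a : ℕ → ℝ) (A K₀ : ℕ) (p C D : ℝ), 0 < p → p ≤ 1 → 0 < C → 0 ≤ D → (∀ n, 0 ≤ a n) →
    (∀ n, 1 ≤ n → a n ^ 2 ≤ C) → (∀ n t, |W n t| ≤ a n) →
    (∀ (n : ℕ) (t t' : ℝ), |W n t - W n t'| ≤ a n * (2 * ((n : ℝ) + 2) ^ A) * |t - t'|) →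
    (∀ j k : ℕ, K₀ ≤ j + k → ∀ i M : ℕ, i ≤ 2 ^ (k + (A + 4) * j) → 2 ^ j ≤ M → M ≤ 2 ^ (j + 1) →
      |∑ n ∈ Ico (2 ^ j) M, W n ((i : ℝ) / 2 ^ ((A + 4) * j))| ≤
        D * (2 : ℝ) ^ (-(p * j / 2)) * Real.sqrt ((j : ℝ) + k)) →
    ∃ K : ℝ, 0 ≤ K ∧ ∀ (j k : ℕ) (t : ℝ), 0 ≤ t → t ≤ 2 ^ k → ∀ M : ℕ, 2 ^ j ≤ M → M ≤ 2 ^ (j + 1) →
      |∑ n ∈ Ico (2 ^ j) M, W n t| ≤ K * (2 : ℝ) ^ (-(p * j / 2)) * Real.sqrt ((j : ℝ) + k + 1)

/-- **SUM** (deterministic; for each `p > 0` there is a constant `c` depending on `p` only). If a sequence `f` satisfies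
`|∑_{2^j ≤ n < M} f n| ≤ K 2 ^ (- p j / 2) √(j + k + 1)` for all `j` and `2 ^ j ≤ M ≤ 2 ^ (j+1)`, then
`|∑_{M ≤ n < M'} f n| ≤ c K 2 ^ (- p J / 2) √(J + k + 1)` for all `J` and `2 ^ J ≤ M ≤ M'`.
Proof. First `M = 2 ^ J`: cut `[2^J, M')` into the blocks `[2^j, 2^(j+1))`, `J ≤ j < L`, and a last partial block of index `L`
(`2 ^ L ≤ M' < 2 ^ (L+1)`; `M' = 2 ^ J` is trivial); by `j + k + 1 ≤ (J + k + 1) (1 + (j - J))` the sum is at most
`∑_{j ≥ J} K 2 ^ (- p j / 2) √(j + k + 1) ≤ K 2 ^ (- p J / 2) √(J + k + 1) ∑_{i ≥ 0} 2 ^ (- p i / 2) √(1 + i)`, and the last series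
converges (`√(1+i) ≤ 1 + i`); let `c₀` be its sum. (Finite sums of a convergent series of nonnegative terms are at most `c₀`.)
In general `∑_{M ≤ n < M'} = ∑_{2^J ≤ n < M'} - ∑_{2^J ≤ n < M}`, so `c = 2 c₀`. -/
def P_SUM : Prop :=
  ∀ p : ℝ, 0 < p → ∃ c : ℝ, 0 ≤ c ∧ ∀ (f : ℕ → ℝ) (K : ℝ) (k : ℕ), 0 ≤ K →
    (∀ j M : ℕ, 2 ^ j ≤ M → M ≤ 2 ^ (j + 1) →
      |∑ n ∈ Ico (2 ^ j) M, f n| ≤ K * (2 : ℝ) ^ (-(p * j / 2)) * Real.sqrt ((j : ℝ) + k + 1)) →
    ∀ J M M' : ℕ, 2 ^ J ≤ M → M ≤ M' →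
      |∑ n ∈ Ico M M', f n| ≤ c * K * (2 : ℝ) ^ (-(p * J / 2)) * Real.sqrt ((J : ℝ) + k + 1)

/-- **CNV** (deterministic). Continuous functions `W n`; if for every `m` the tails are bounded as stated, uniformly for
`t ∈ [0, 2^k]`, then the series converges for every `t ≥ 0`, its sum is continuous on `[0, ∞)` and satisfies `UT`.
Proof. Take `m = 0` (`pe 0 = 1/2`): for `t ∈ [0, 2^k]` the partial sums form a Cauchy sequence since
`2 ^ (- J / 4) √(J + k + 1) → 0` as `J → ∞`. Let `S t` be the limit for `t ≥ 0` (and `0` for `t < 0`). Let `M' → ∞` in the bound for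
`∑_{M ≤ n < M'} W n t = part W M' t - part W M t`: this is `UT`. The convergence is uniform on `[0, 2^k]` for each `k`, so `S` is
continuous on `[0, 2^k]` for every `k` (`TendstoUniformlyOn.continuousOn`, or `TendstoLocallyUniformlyOn`), hence on `[0, ∞)`. -/
def P_CNV : Prop :=
  ∀ W : ℕ → ℝ → ℝ, (∀ n, Continuous (W n)) →
    (∀ m : ℕ, ∃ K : ℝ, ∀ J k : ℕ, ∀ t : ℝ, 0 ≤ t → t ≤ 2 ^ k → ∀ M M' : ℕ, 2 ^ J ≤ M → M ≤ M' →
      |∑ n ∈ Ico M M', W n t| ≤ K * (2 : ℝ) ^ (-(pe m * J / 2)) * Real.sqrt ((J : ℝ) + k + 1)) →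
    ∃ S : ℝ → ℝ, (∀ t, 0 ≤ t → Tendsto (fun N => part W N t) atTop (𝓝 (S t))) ∧ ContinuousOn S (Set.Ici 0) ∧ UT W S

/-- **TAIL.** Almost surely the series of the waves converges for all `t ≥ 0`, the sum is continuous and `UT` holds.
Proof. Fix `m`, `p = pe m = 1 - 1/(m+2) ∈ (0, 1)`. By `Amp a` with `ε = 1/(m+2)` and `N = 2 ^ j` there is `C > 0` with
`∑_{2^j ≤ n < M} a n ^ 2 ≤ C 2 ^ (- p j)` (replace `C` by `max C 1`); in particular `a n ^ 2 ≤ C` for `n ≥ 1` (take the `j` with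
`2 ^ j ≤ n < 2 ^ (j+1)`, `M = n + 1`). EV holds almost surely; almost surely all first coordinates lie in `[0,1]` (MOD), and then
the waves satisfy the hypotheses of BLK: `|cos y - cos y'| ≤ |y - y'|` and `|g n + w n u| ≤ (n+2)^A + 1 ≤ 2 (n+2)^A` by
`Win A g w` (`0 < w n ≤ 1`). BLK gives the block bounds for all `j`, `k`, `t`, and SUM (applied to `f n = W n t` for every `t`, `k`)
the tail bounds. All this holds almost surely for all `m` simultaneously. Then CNV. -/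
def P_TAIL : Prop :=
  ∀ (Ω : Type) [MeasurableSpace Ω] (P : Measure Ω) (X : ℕ → Ω → ℝ × ℝ), Model P X →
    ∀ (a β g w : ℕ → ℝ) (A : ℕ), Amp a → Win A g w →
      ∀ᵐ ω ∂P, ∃ S : ℝ → ℝ,
        (∀ t, 0 ≤ t → Tendsto (fun N => part (wave a β g w (fun n => X n ω)) N t) atTop (𝓝 (S t))) ∧
        ContinuousOn S (Set.Ici 0) ∧ UT (wave a β g w (fun n => X n ω)) S

/-- **UP** (deterministic). If `UT W S`, `|part W N t| ≤ R a N`, `κ > 0`, `0 ≤ b < b'` and `R a N ≤ b (log N) ^ κ` for all large `N`,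
then `|S t| ≤ b' (log log t) ^ κ` for all large `t`.
Proof. Choose `q > 1` with `b q ^ κ < b'` and then `m` with `q pe m ≥ 1` (`pe m → 1`); let `K` (`≥ 0` without loss) be the
constant of `UT` for `m`. For large `t` let `k = ⌈log t / log 2⌉₊`, so `t ≤ 2 ^ k` and `k ≤ log t / log 2 + 1`, and
`J = ⌈q log k / log 2⌉₊`, so `2 ^ J ≥ k ^ q` and `J ≤ q log k / log 2 + 1 ≤ k` for large `k`. By `UT` with `M = 2 ^ J`:
`|S t| ≤ R a (2^J) + K 2 ^ (- pe m J / 2) √(J + k + 1) ≤ R a (2 ^ J) + K k ^ (-1/2) √(3 k) ≤ R a (2^J) + 2 K`, because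
`2 ^ (- pe m J / 2) ≤ k ^ (- q pe m / 2) ≤ k ^ (-1/2)`. For large `t` also `R a (2^J) ≤ b (J log 2) ^ κ ≤
b (q log k + log 2) ^ κ`, and `log k ≤ log (log t / log 2 + 1) ≤ log log t + 1` for large `t`. So
`|S t| ≤ b (q log log t + q + 1) ^ κ + 2 K`, and this is at most `b' (log log t) ^ κ` for large `t`, as
`(b (q y + q + 1) ^ κ + 2 K) / y ^ κ → b q ^ κ < b'` as `y = log log t → ∞`. -/
def P_UP : Prop :=
  ∀ (W : ℕ → ℝ → ℝ) (S : ℝ → ℝ) (a : ℕ → ℝ) (κ b b' : ℝ), UT W S → (∀ N t, |part W N t| ≤ R a N) →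
    0 < κ → 0 ≤ b → b < b' → (∀ᶠ N : ℕ in atTop, R a N ≤ b * Real.log N ^ κ) →
    ∀ᶠ t : ℝ in atTop, |S t| ≤ b' * Real.log (Real.log t) ^ κ

/-- **LOW** (deterministic). `σ = 1` or `σ = -1`. Suppose `UT W S` and that for all `0 < c < 1` there are `D ≥ 1` and `N₀` such that
for all `N ≥ N₀` there is `t` with `N ≤ t ≤ exp (D N)`, `c R a N ≤ σ part W N t` and `|∑_{N ≤ n < N^4} W n t| ≤ 1`. If
`κ > 0`, `b ≥ 0`, `b (log N) ^ κ ≤ R a N` for infinitely many `N` and `b'' < b`, then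
`b'' (log log t) ^ κ ≤ σ S t` for arbitrarily large `t`. (`a n ≥ 0`.)
Proof. Choose `0 < c < 1` with `b'' < c b` if `b'' ≥ 0` (then `b > 0`), and `c = 1/2` if `b'' < 0`. Take `N` large with
`b (log N) ^ κ ≤ R a N` and the time `t`. `S t = part W N t + ∑_{N≤n<N^4} W n t + (S t - part W (N^4) t)`. The last term: `UT` with
`m = 0` (`pe 0 = 1/2`), `2 ^ J ≤ N ^ 4 < 2 ^ (J+1)` (`J = Nat.log 2 (N^4)`) and `k = ⌈D N / log 2⌉₊`, `t ≤ 2 ^ k`: it is at most
`K 2 ^ (- J / 4) √(J + k + 1) ≤ K 2 N ^ (-1) √(4 log N / log 2 + D N / log 2 + 2) → 0`, so at most `1` for large `N`. Hence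
`σ S t ≥ c R a N - 2`. If `b'' < 0`: `σ S t ≥ -2 ≥ b'' (log log t) ^ κ` for large `N`, as `log log t ≥ log log N → ∞`. If `b'' ≥ 0`:
`log log t ≤ log (D N) = log N + log D`, so `b'' (log log t) ^ κ ≤ b'' (log N + log D) ^ κ ≤ c b (log N) ^ κ - 2 ≤ c R a N - 2` for
large `N`, because `b'' (log N + log D) ^ κ / (log N) ^ κ → b'' < c b` and `(log N) ^ κ → ∞`. As `t ≥ N`, `t` is arbitrarily
large. -/
def P_LOW : Prop :=
  ∀ (W : ℕ → ℝ → ℝ) (S : ℝ → ℝ) (a : ℕ → ℝ) (σ κ b b'' : ℝ), (σ = 1 ∨ σ = -1) → (∀ n, 0 ≤ a n) → UT W S →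
    (∀ c : ℝ, 0 < c → c < 1 → ∃ D : ℝ, 1 ≤ D ∧ ∃ N₀ : ℕ, ∀ N : ℕ, N₀ ≤ N → ∃ t : ℝ, (N : ℝ) ≤ t ∧ t ≤ Real.exp (D * N) ∧
      c * R a N ≤ σ * part W N t ∧ |∑ n ∈ Ico N (N ^ 4), W n t| ≤ 1) →
    0 < κ → 0 ≤ b → b'' < b → (∃ᶠ N : ℕ in atTop, b * Real.log N ^ κ ≤ R a N) →
    ∃ᶠ t : ℝ in atTop, b'' * Real.log (Real.log t) ^ κ ≤ σ * S t

/-- **LOC.** Almost surely the hypothesis of LOW holds for the waves, for `σ = 1` and `σ = -1`.
Proof. For `σ = 1` take the shifts `s n = β n / (2 π)`, for `σ = -1` `s n = β n / (2 π) + 1 / 2`. If the argument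
`arg g w s x n t` is within `δ / 2` of an integer then, by ARC (1), `cos (2 π arg) ≥ cos (π δ)`, and `2 π arg` is the argument
of the cosine in `wave` (plus `π` if `σ = -1`, which changes the sign of the cosine); so `σ wave ≥ cos (π δ) a n`
(multiply by `a n ≥ 0`), and `σ part W N t ≥ cos (π δ) R a N`. Apply LOB for `δ = 1 / (i + 3)`, `i = 0, 1, …`, and both shifts
(countably many almost sure statements). Given `0 < c < 1` choose `i` with `cos (π / (i+3)) ≥ c`; then `D = log (1/δ) + 1 ≥ 1`;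
`R a N ≥ 0`. -/
def P_LOC : Prop :=
  ∀ (Ω : Type) [MeasurableSpace Ω] (P : Measure Ω) (X : ℕ → Ω → ℝ × ℝ), Model P X →
    ∀ (a β g w : ℕ → ℝ) (A : ℕ), Amp a → Win A g w →
      ∀ᵐ ω ∂P, ∀ σ : ℝ, (σ = 1 ∨ σ = -1) → ∀ c : ℝ, 0 < c → c < 1 → ∃ D : ℝ, 1 ≤ D ∧ ∃ N₀ : ℕ, ∀ N : ℕ, N₀ ≤ N →
        ∃ t : ℝ, (N : ℝ) ≤ t ∧ t ≤ Real.exp (D * N) ∧
          c * R a N ≤ σ * part (wave a β g w (fun n => X n ω)) N t ∧
          |∑ n ∈ Ico N (N ^ 4), wave a β g w (fun n => X n ω) n t| ≤ 1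

/-- **FIN** (deterministic, extended real upper limits). `a n ≥ 0`, `κ > 0`. Suppose
(U) for `0 ≤ b < b'` with `R a N ≤ b (log N) ^ κ` for all large `N`: `|S t| ≤ b' (log log t) ^ κ` for all large `t`;
(L) for `0 ≤ b`, `b'' < b` with `b (log N) ^ κ ≤ R a N` for infinitely many `N` and `σ = ± 1`: `b'' (log log t) ^ κ ≤ σ S t` for
arbitrarily large `t`. Then for every real `c` the upper and lower limits of `√x (c + S (log x)) / (√x (log log log x) ^ κ)`,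
`x → ∞`, are `Λ` and `- Λ`, `Λ` the upper limit of `R a N / (log N) ^ κ`, in the extended reals.
Proof. For large `x` the quotient is `(c + S (log x)) / (log log log x) ^ κ`, the denominator is positive and tends to `∞`, and
`t = log x → ∞`. `Λ ≥ 0`. Upper bound for the upper limit: let `b'` be real, `b' > Λ` (nothing to do if `Λ = ⊤`); choose reals
`Λ < b < b₁ < b'`; eventually `R a N ≤ b (log N) ^ κ`, so eventually `|S t| ≤ b₁ (log log t) ^ κ` by (U), and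
`(c + S t) / (log log t) ^ κ ≤ b₁ + |c| / (log log t) ^ κ ≤ b'` eventually. The same bounds the lower limit from below by `- b'`.
Lower bound: let `b'' < Λ` be real; if `b'' < 0` use `b = 0`, otherwise choose a real `b` with `b'' < b < Λ`; then
`b (log N) ^ κ ≤ R a N` infinitely often (for `b = 0` always), so with `b'' < b₂ < b` by (L) `b₂ (log log t) ^ κ ≤ S t` for
arbitrarily large `t`, for which `(c + S t)/(log log t)^κ ≥ b₂ - |c| / (log log t)^κ ≥ b''` if `t` is large. With `σ = -1` the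
lower limit is at most `- b''`. (`Filter.le_limsup_of_frequently_le`, `Filter.limsup_le_of_le`, `EReal` coercions;
`le_of_forall_lt` and `EReal.lt_iff_exists_real_btwn` for the reduction to reals.) -/
def P_FIN : Prop :=
  ∀ (S : ℝ → ℝ) (a : ℕ → ℝ) (κ : ℝ), (∀ n, 0 ≤ a n) → 0 < κ →
    (∀ b b' : ℝ, 0 ≤ b → b < b' → (∀ᶠ N : ℕ in atTop, R a N ≤ b * Real.log N ^ κ) →
      ∀ᶠ t : ℝ in atTop, |S t| ≤ b' * Real.log (Real.log t) ^ κ) →
    (∀ σ b b'' : ℝ, (σ = 1 ∨ σ = -1) → 0 ≤ b → b'' < b → (∃ᶠ N : ℕ in atTop, b * Real.log N ^ κ ≤ R a N) →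
      ∃ᶠ t : ℝ in atTop, b'' * Real.log (Real.log t) ^ κ ≤ σ * S t) →
    ∀ c : ℝ,
      Filter.limsup (fun x : ℝ => (((Real.sqrt x * (c + S (Real.log x))) /
          (Real.sqrt x * Real.log (Real.log (Real.log x)) ^ κ) : ℝ) : EReal)) atTop =
        Filter.limsup (fun N : ℕ => ((R a N / Real.log N ^ κ : ℝ) : EReal)) atTop ∧
      Filter.liminf (fun x : ℝ => (((Real.sqrt x * (c + S (Real.log x))) /
          (Real.sqrt x * Real.log (Real.log (Real.log x)) ^ κ) : ℝ) : EReal)) atTop =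
        -Filter.limsup (fun N : ℕ => ((R a N / Real.log N ^ κ : ℝ) : EReal)) atTop

end Pool.Agent.H705.RO
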