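import Pool.Agent.H705.RO.Stm3

/-! # Primes in arithmetic progressions with the phases of the zeros randomised. The parts of the proof

For every modulus `q` there are `d q` families of zeros `1/2 + i γ q i n`, `i < d q`, `n = 0, 1, …` (the zeros of the `φ q` functions
`L (s, χ)`, `χ` modulo `q`); the zero with the indices `(q, i, n)` has the phase `2 π v_m`, `m = f q i n`, where `f q` is injective for
each `q` (different moduli may share phases). Every `P_X` is one part; its docstring is a complete paper proof. `P_HOE` of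
`Pool.Agent.H705.RO.Stm` is proved and may be used as a hypothesis. -/

set_option autoImplicit false

namespace Pool.Agent.H705.RO

open MeasureTheory ProbabilityTheory Filter Topology Finset

/-- `γ q i n ≥ 0` and `γ q i n + 1 ≥ c (n + 1) / log ((q + 1) (n + 2))` for `i < d q` -/
def OrdD (c : ℝ) (d : ℕ → ℕ) (γ : ℕ → ℕ → ℕ → ℝ) : Prop :=
  ∀ q i n : ℕ, 1 ≤ q → i < d q → 0 ≤ γ q i n ∧
    c * ((n : ℝ) + 1) / Real.log (((q : ℝ) + 1) * ((n : ℝ) + 2)) ≤ γ q i n + 1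

/-- different zeros of one modulus have different phases -/
def InjD (d : ℕ → ℕ) (f : ℕ → ℕ → ℕ → ℕ) : Prop :=
  ∀ q i n i' n' : ℕ, i < d q → i' < d q → f q i n = f q i' n' → i = i' ∧ n = n'

/-- the term of a zero `1/2 + i γ` with coefficient `b` and random number `v` -/
noncomputable def tz (γ : ℝ) (b : ℂ) (x v : ℝ) : ℝ :=
  2 * (b * ((x : ℂ) ^ (rh γ) / rh γ) * Complex.exp (2 * (Real.pi : ℂ) * Complex.I * (v : ℂ))).re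

/-- the sum over the zeros of modulus `q` with indices `n ∈ s`, coefficients `b i`, divided by `d q` -/
noncomputable def bz (d : ℕ → ℕ) (γ : ℕ → ℕ → ℕ → ℝ) (f : ℕ → ℕ → ℕ → ℕ) (y : ℕ → ℝ × ℝ) (q : ℕ) (b : ℕ → ℂ) (s : Finset ℕ)
    (x : ℝ) : ℝ :=
  (∑ n ∈ s, ∑ i ∈ range (d q), tz (γ q i n) (b i) x (y (f q i n)).2) / d q

/-- **HOD** (Hoeffding for sums indexed by a finite set). `s` a finite set of pairs, `F` injective on `s`, complex numbers `c`,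
`4 ∑ |c| ^ 2 ≤ v`: the sum of `2 Re (c_z exp (2 π i v_{F z}))` is at least `lam` in absolute value with probability at most
`2 exp (- lam ^ 2 / (2 v))`.
Proof. `2 Re (c exp (2 π i v)) = 2 |c| cos (2 π v + arg c)`. Let `a' m = 2 |c z|`, `β' m = arg (c z)` if `m = F z` with `z ∈ s` and
`a' m = β' m = 0` for all other `m`; the sum equals `∑_{m ∈ Ico 0 M'} wave a' β' 0 0 (X · ω) m 0` for `M'` larger than all `F z`, and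
`∑ a' m ^ 2 = 4 ∑ |c z| ^ 2 ≤ v` (reindex by the injective `F`, `Finset.sum_image`). Apply HOE. -/
def P_HOD : Prop :=
  ∀ (Ω : Type) [MeasurableSpace Ω] (P : Measure Ω) (X : ℕ → Ω → ℝ × ℝ), Model P X →
    ∀ (s : Finset (ℕ × ℕ)) (F : ℕ × ℕ → ℕ) (c : ℕ × ℕ → ℂ) (lam v : ℝ), Set.InjOn F (s : Set (ℕ × ℕ)) → 0 < lam → 0 < v →
      4 * ∑ z ∈ s, ‖c z‖ ^ 2 ≤ v →
      P {ω | lam ≤ |∑ z ∈ s, 2 * (c z * Complex.exp (2 * (Real.pi : ℂ) * Complex.I * (((X (F z) ω).2 : ℝ) : ℂ))).re|} ≤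
        ENNReal.ofReal (2 * Real.exp (-(lam ^ 2 / (2 * v))))

/-- **SQD.** For `c > 0` there is `K > 0` such that for ordinates with `OrdD c d γ`, `1 ≤ q ≤ 2 ^ (j+1)`, `d q ≥ 1`, `1 ≤ x`, and
`n`-range `[2^l - 1, M)`, `M ≤ 2^(l+1) - 1`: `∑_n ∑_{i<d q} (2 √x / (|ρ| d q)) ^ 2 ≤ K x (j+l+4)^2 / (2^l d q)`.
Proof. `|ρ| = √(1/4 + γ^2) ≥ (γ + 1) / 3` for `γ ≥ 0`. So `1 / |ρ| ≤ 3 / (γ+1) ≤ 3 L / (c (n+1))`, `L = log ((q+1)(n+2)) > 0`; for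
`2^l ≤ n + 1 < 2^(l+1)` and `q ≤ 2^(j+1)`: `L ≤ log (2^(j+2) 2^(l+2)) ≤ j + l + 4` and `n + 1 ≥ 2^l`. There are at most `2^l d q` terms, each
at most `(6 √x (j+l+4) / (c 2^l d q)) ^ 2`; total at most `36 c^(-2) x (j+l+4)^2 / (2^l d q)`. -/
def P_SQD : Prop :=
  ∀ c : ℝ, 0 < c → ∃ K : ℝ, 0 < K ∧ ∀ (d : ℕ → ℕ) (γ : ℕ → ℕ → ℕ → ℝ), OrdD c d γ →
    ∀ (j l q M : ℕ) (x : ℝ), 1 ≤ q → q ≤ 2 ^ (j + 1) → 1 ≤ d q → 1 ≤ x → M ≤ 2 ^ (l + 1) - 1 →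
      ∑ n ∈ Ico (2 ^ l - 1) M, ∑ i ∈ range (d q), (2 * Real.sqrt x / (‖rh (γ q i n)‖ * d q)) ^ 2 ≤
        K * x * ((j : ℝ) + l + 4) ^ 2 / (2 ^ l * d q)

/-- **EVD.** For `c > 0` there is `D > 0` such that in every model, for all `d` with `d q ≥ 1` for `q ≥ 1`, `γ` with `OrdD c d γ`, `f` with
`InjD d f`, coefficients `|b q r i| ≤ 1`: almost surely there is `j₀` such that for all `j ≥ j₀`, all `l`, `1 ≤ q ≤ 2^(j+1)`, `r < q`, all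
points `x = i / 8^(j+l)` with `2^j ≤ x ≤ 2^(j+1)` and all `2^l - 1 ≤ M ≤ 2^(l+1) - 1`:
`|bz over n ∈ [2^l - 1, M)| ≤ D √(x / d q) (j+l+4)^(3/2) 2^(-l/2)`, written as `√(D^2 x (j+l+4)^3 / (2^l d q))`.
Proof. `K` from SQD, `D = 4 √K`. For one `(j, l, q, r, x, M)`: `bz` is the sum over the pairs `(i, n)` of
`2 Re (c_z exp (2 π i v_{f q i n}))` with `c_z = b (x^ρ / ρ) / d q`, `|c_z| ≤ √x / (|ρ| d q)`; HOD with `v = K x (j+l+4)^2 / (2^l d q)` (SQD; the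
factor `4 = 2^2` is in the `2 √x`) and `lam = D √(…)` gives `lam^2 / (2 v) = 8 (j+l+4)`, so it fails with probability at most
`2 exp (-8 (j+l+4)) ≤ 2 · 2 ^ (-8 (j+l+4))`. The number of `(q, r)` is at most `2 ^ (2 j + 2)`, of `x` at most
`2^(j+1) 8^(j+l) + 1 ≤ 2 ^ (4 j + 3 l + 2)`, of `M` at most `2^l + 1 ≤ 2^(l+1)`. So the probability that it fails for some `(q, r, x, M)` is
at most `2 ^ (6 j + 4 l + 6 - 8 j - 8 l - 32)`, summable over `(j, l)`; by Borel–Cantelli (over `ℕ × ℕ`) only finitely many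
`(j, l)` fail. -/
def P_EVD : Prop :=
  ∀ c : ℝ, 0 < c → ∃ D : ℝ, 0 < D ∧
    ∀ (Ω : Type) [MeasurableSpace Ω] (P : Measure Ω) (X : ℕ → Ω → ℝ × ℝ), Model P X →
      ∀ (d : ℕ → ℕ) (γ : ℕ → ℕ → ℕ → ℝ) (f : ℕ → ℕ → ℕ → ℕ) (b : ℕ → ℕ → ℕ → ℂ), (∀ q, 1 ≤ q → 1 ≤ d q) → OrdD c d γ → InjD d f →
        (∀ q r i, ‖b q r i‖ ≤ 1) →
        ∀ᵐ ω ∂P, ∃ j₀ : ℕ, ∀ j : ℕ, j₀ ≤ j → ∀ (l q r i M : ℕ) (x : ℝ), 1 ≤ q → q ≤ 2 ^ (j + 1) → r < q →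
          x = (i : ℝ) / 8 ^ (j + l) → 2 ^ j ≤ x → x ≤ 2 ^ (j + 1) → 2 ^ l - 1 ≤ M → M ≤ 2 ^ (l + 1) - 1 →
          |bz d γ f (fun n => X n ω) q (b q r) (Ico (2 ^ l - 1) M) x| ≤
            Real.sqrt (D ^ 2 * x * ((j : ℝ) + l + 4) ^ 3 / (2 ^ l * d q))

/-- **BLD** (deterministic). From the grid to all `x`. If `1 ≤ d q ≤ q ≤ 2^(j+1)`, `|b i| ≤ 1`, and the bound of EVD holds at all grid
points `x = i / 8^(j+l)` of `[2^j, 2^(j+1)]` (for fixed `j`, `l`, `q`, `M`, with `D ≥ 0`), then for all real `x ∈ [2^j, 2^(j+1)]`: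
`|bz over n ∈ [2^l - 1, M)| ≤ √((2 D + 4)^2 x (j+l+4)^3 / (2^l d q))`.
Proof. `x' = ⌈8^(j+l) x⌉ / 8^(j+l) ∈ [x, x + 8^(-(j+l))]`, `x' ≤ 2^(j+1)` (which is a grid point) and `x' ≤ x + 1 ≤ 2 x`. Each
`tz γ b x v` is Lipschitz in `x ≥ 1` with constant `2` (its derivative is `2 Re (b x^(ρ-1) e)` with `|x^(ρ-1)| = x^(-1/2) ≤ 1`), there are
at most `2^l d q` terms, so `|bz x - bz x'| ≤ 2 · 2^l 8^(-(j+l)) ≤ 2 · 2^(-2l)`. As `x / d q ≥ 2^j / 2^(j+1) = 1/2` this is at most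
`4 √(x / d q) 2^(-l/2)` and so at most `4 √(x (j+l+4)^3 / (2^l d q))`; and at `x'` the bound is at most `√2 D √(x (j+l+4)^3 / (2^l d q))`. -/
def P_BLD : Prop :=
  ∀ (d : ℕ → ℕ) (γ : ℕ → ℕ → ℕ → ℝ) (f : ℕ → ℕ → ℕ → ℕ) (y : ℕ → ℝ × ℝ) (q : ℕ) (b : ℕ → ℂ) (j l M : ℕ) (D : ℝ),
    1 ≤ d q → d q ≤ q → q ≤ 2 ^ (j + 1) → (∀ i, ‖b i‖ ≤ 1) → 0 ≤ D → 2 ^ l - 1 ≤ M → M ≤ 2 ^ (l + 1) - 1 →
    (∀ (i : ℕ) (x : ℝ), x = (i : ℝ) / 8 ^ (j + l) → 2 ^ j ≤ x → x ≤ 2 ^ (j + 1) →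
      |bz d γ f y q b (Ico (2 ^ l - 1) M) x| ≤ Real.sqrt (D ^ 2 * x * ((j : ℝ) + l + 4) ^ 3 / (2 ^ l * d q))) →
    ∀ x : ℝ, 2 ^ j ≤ x → x ≤ 2 ^ (j + 1) →
      |bz d γ f y q b (Ico (2 ^ l - 1) M) x| ≤ Real.sqrt ((2 * D + 4) ^ 2 * x * ((j : ℝ) + l + 4) ^ 3 / (2 ^ l * d q))

/-- **FID** (deterministic). There is `B > 0` such that for every real sequence `s`, `E ≥ 0` and `j` with
`|∑_{2^l - 1 ≤ n < M} s n| ≤ √(E^2 (j+l+4)^3 / 2^l)` for all `l` and `2^l - 1 ≤ M ≤ 2^(l+1) - 1`, the series `∑ s n` converges (partial sums) and its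
sum is at most `B E (j+1)^(3/2)` in absolute value.
Proof. `√(E^2 (j+l+4)^3/2^l) = E (j+l+4)^(3/2) 2^(-l/2) ≤ E (4 (j+1) (1+l))^(3/2) 2^(-l/2) = 8 E (j+1)^(3/2) (1+l)^(3/2) 2^(-l/2)`, and
`∑_l (1+l)^(3/2) 2^(-l/2) ≤ ∑_l (1+l)^2 2^(-l/2) =: B₀ < ∞`. The blocks `[2^l - 1, 2^(l+1) - 1)`, `l = 0, 1, …`, partition `ℕ`; the partial sum up to `N` is the
sum of full blocks and one partial block, so the partial sums are Cauchy (a tail is at most the tail of a convergent series,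
twice) and bounded by `8 B₀ E (j+1)^(3/2)`. -/
def P_FID : Prop :=
  ∃ B : ℝ, 0 < B ∧ ∀ (s : ℕ → ℝ) (E : ℝ) (j : ℕ), 0 ≤ E →
    (∀ l M : ℕ, 2 ^ l - 1 ≤ M → M ≤ 2 ^ (l + 1) - 1 →
      |∑ n ∈ Ico (2 ^ l - 1) M, s n| ≤ Real.sqrt (E ^ 2 * ((j : ℝ) + l + 4) ^ 3 / 2 ^ l)) →
    ∃ S : ℝ, Tendsto (fun N => ∑ n ∈ range N, s n) atTop (𝓝 S) ∧ |S| ≤ B * E * ((j : ℝ) + 1) ^ (3 / 2 : ℝ)

/-- **ALD** (the parts together). For `c > 0` there is `K > 0` such that in every model, for `1 ≤ d q ≤ q` (`q ≥ 1`), `OrdD c d γ`,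
`InjD d f` and `|b q r i| ≤ 1`: almost surely there is `x₀` such that for all real `x ≥ x₀`, `1 ≤ q ≤ x` and `r < q` the sums over the zeros
`n < N` converge as `N → ∞`, to a limit of absolute value at most `K √(x / d q) (log x)^(3/2)`.
Proof. EVD (constant `D`), then for `x ≥ 2 ^ max j₀ 1` take `j ≥ 1` with `2^j ≤ x < 2^(j+1)` (so `q ≤ x ≤ 2^(j+1)`), BLD for all `l`, `M`, and FID with
`s n = bz` of the single index `n` (`bz` is additive in the set: the sum over `Ico` of the `s n` is `bz … (Ico …)`), `E = (2 D + 4) √(x / d q)`; finally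
`j + 1 ≤ 2 j ≤ 2 log x / log 2 ≤ 3 log x`. `K = 9 B (2 D + 4)` will do (`3^(3/2) ≤ 9`). -/
def P_ALD : Prop :=
  ∀ c : ℝ, 0 < c → ∃ K : ℝ, 0 < K ∧
    ∀ (Ω : Type) [MeasurableSpace Ω] (P : Measure Ω) (X : ℕ → Ω → ℝ × ℝ), Model P X →
      ∀ (d : ℕ → ℕ) (γ : ℕ → ℕ → ℕ → ℝ) (f : ℕ → ℕ → ℕ → ℕ) (b : ℕ → ℕ → ℕ → ℂ), (∀ q, 1 ≤ q → 1 ≤ d q ∧ d q ≤ q) → OrdD c d γ →
        InjD d f → (∀ q r i, ‖b q r i‖ ≤ 1) →
        ∀ᵐ ω ∂P, ∃ x₀ : ℝ, ∀ x : ℝ, x₀ ≤ x → ∀ q r : ℕ, 1 ≤ q → (q : ℝ) ≤ x → r < q →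
          ∃ S : ℝ, Tendsto (fun N => bz d γ f (fun n => X n ω) q (b q r) (range N) x) atTop (𝓝 S) ∧
            |S| ≤ K * Real.sqrt (x / d q) * Real.log x ^ (3 / 2 : ℝ)

end Pool.Agent.H705.RO
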